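import Pool.Agent.Helper30_Cube.Main

/-!
# The local bound: all labels are mirrored, and the complex splits over the vertices
-/

namespace Pool.Agent.Helper30L2

open scoped ENNReal InnerProductSpace
open Filter

set_option linter.unusedSectionVars false

noncomputable section

section iterate

variable {A : Type*} [DecidableEq A] [Fintype A] {V : Type*} [Fintype V]
  {K : V → Finset A → Prop} {op : A → V → V} {ε : Sgn A} {Γ : SimpleGraph A}

/-- The labels in `S` are mirrored. -/
def mirS (op : A → V → V) (S : Finset A) (b : A) (v : V) : V := if b ∈ S then v else op b v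

theorem mirS_insert (S : Finset A) (a : A) : mirS op (insert a S) = mir (mirS op S) a := by
  funext b v
  unfold mirS mir
  by_cases h : b = a
  · subst h
    simp
  · simp [h]

theorem mirS_cub (hX : IsCub K op) (S : Finset A) : IsCub K (mirS op S) := by
  induction S using Finset.induction_on with
  | empty =>
    have : mirS op (∅ : Finset A) = op := by
      funext b v
      unfold mirS
      simp
    rw [this]
    exact hX
  | insert a S _ ih =>
    rw [mirS_insert]
    exact mir_cub ih a

theorem mirS_mono {W : Type*} [Group W] (cs : CoxeterSystem (cm Γ) W) (hX : IsCub K op)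
    (hcl : ∀ v T, K v T → Γ.IsClique (T : Set A)) (S : Finset A) (i : ℤ) :
    vdim (CH ε K op cs.simple i) ≤ vdim (CH ε K (mirS op S) cs.simple i) := by
  induction S using Finset.induction_on with
  | empty =>
    have : mirS op (∅ : Finset A) = op := by
      funext b v
      unfold mirS
      simp
    rw [this]
  | insert a S _ ih =>
    rw [mirS_insert]
    exact ih.trans (mir_mono cs (mirS_cub hX S) hcl a i)

theorem mirS_univ : mirS op Finset.univ = fun _ v => v := by
  funext b v
  unfold mirS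
  simp

theorem mir_all {W : Type*} [Group W] (cs : CoxeterSystem (cm Γ) W) (hX : IsCub K op)
    (hcl : ∀ v T, K v T → Γ.IsClique (T : Set A)) (i : ℤ) :
    vdim (CH ε K op cs.simple i) ≤ vdim (CH ε K (fun _ v => v) cs.simple i) := by
  have := mirS_mono (ε := ε) cs hX hcl Finset.univ i
  rwa [mirS_univ] at this

end iterate

section decomp

variable {A : Type*} [DecidableEq A] [Fintype A] {V : Type*} [Fintype V]
  {ε : Sgn A} {Γ : SimpleGraph A} {G : Type*} [Group G] {s : A → G}

/-- The cells at the vertex `v`. -/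
def kv (v : V) : Finset A ↪ V × Finset A where
  toFun := fun T => (v, T)
  inj' := fun _ _ h => (Prod.mk.inj h).2

theorem mem_range_kv {v : V} {p : V × Finset A} : p ∈ Set.range (kv (A := A) v) ↔ p.1 = v := by
  constructor
  · rintro ⟨T, rfl⟩
    rfl
  · rintro rfl
    exact ⟨p.2, rfl⟩

theorem cmp_kv (v : V) (x : Hil (G × (V × Finset A))) (g : G) (T : Finset A) :
    cmp (kv v) x (g, T) = x (g, (v, T)) := by
  rw [cmp_apply]
  rfl

theorem emb_kv (v : V) (u : Hil (G × Finset A)) (g : G) (T : Finset A) :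
    emb (kv v) u (g, (v, T)) = u (g, T) := emb_apply (kv v) u g T

theorem emb_kv_ne {v w : V} (h : w ≠ v) (u : Hil (G × Finset A)) (g : G) (T : Finset A) :
    emb (kv v) u (g, (w, T)) = 0 :=
  emb_apply_not (kv v) u g (fun h2 => h (mem_range_kv.mp h2))

theorem cmp_emb_ne {v w : V} (h : w ≠ v) (u : Hil (G × Finset A)) :
    cmp (kv w) (emb (kv v) u) = 0 := by
  apply Hil.ext'
  rintro ⟨g, T⟩
  rw [cmp_kv, emb_kv_ne h]
  rfl

theorem cmp_cD (v : V) (S : Finset A) (x : Hil (G × (V × Finset A))) :
    cmp (kv v) (cD ε S x) = Dd ε S (cmp (kv v) x) := by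
  apply Hil.ext'
  rintro ⟨g, T⟩
  rw [cmp_kv, cD_apply, Dd_apply]
  refine Finset.sum_congr rfl fun a _ => ?_
  rw [cmp_kv]

theorem emb_cD (v : V) (S : Finset A) (u : Hil (G × Finset A)) :
    cD ε S (emb (kv v) u) = emb (kv v) (Dd ε S u) := by
  apply Hil.ext'
  rintro ⟨g, w, T⟩
  by_cases h : w = v
  · subst h
    rw [emb_kv, cD_apply, Dd_apply]
    refine Finset.sum_congr rfl fun a _ => ?_
    rw [emb_kv]
  · rw [emb_kv_ne h, cD_apply]
    apply Finset.sum_eq_zero
    intro a _
    rw [emb_kv_ne h, mul_zero]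

theorem sum_emb_cmp [DecidableEq V] (x : Hil (G × (V × Finset A))) :
    x = ∑ v, emb (kv v) (cmp (kv v) x) := by
  apply Hil.ext'
  rintro ⟨g, w, T⟩
  rw [sum_apply', Finset.sum_eq_single w]
  · rw [emb_kv, cmp_kv]
  · intro v _ hv
    exact emb_kv_ne hv.symm _ _ _
  · intro h
    exact absurd (Finset.mem_univ _) h

/-- The cells of a flag complex. -/
def KF (Γ : SimpleGraph A) (at' : V → Finset A) (v : V) (T : Finset A) : Prop :=
  T ⊆ at' v ∧ Γ.IsClique (T : Set A)

variable {at' : V → Finset A}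

theorem mem_CC_iff (i : ℤ) (x : Hil (G × (V × Finset A))) :
    x ∈ CC (KF Γ at') (fun _ v => v) s i ↔ ∀ v, cmp (kv v) x ∈ Cc Γ s (at' v) i := by
  constructor
  · intro hx v
    rw [mem_Cc]
    constructor
    · intro g T hT
      rw [cmp_kv]
      apply hx.1
      rintro ⟨⟨h1, h2⟩, h3⟩
      exact hT ⟨h1, h2, h3⟩
    · intro g T t ht
      rw [cmp_kv, cmp_kv]
      by_cases h : KF Γ at' v T
      · exact hx.2 g v T h t ht
      · rw [hx.1 _ _ _ (fun h' => h h'.1), hx.1 _ _ _ (fun h' => h h'.1), neg_zero]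
  · intro h
    rw [mem_CC]
    constructor
    · intro g v T hT
      have := (h v).1 g T (by
        rintro ⟨h1, h2, h3⟩
        exact hT ⟨⟨h1, h2⟩, h3⟩)
      rwa [cmp_kv] at this
    · intro g v T hT t ht
      have := (h v).2 g T t ht
      rwa [cmp_kv, cmp_kv] at this

theorem emb_mem_CC [DecidableEq V] (i : ℤ) (v : V) {u : Hil (G × Finset A)}
    (hu : u ∈ Cc Γ s (at' v) i) :
    emb (kv v) u ∈ CC (KF Γ at') (fun _ v => v) s i := by
  rw [mem_CC_iff]
  intro w
  by_cases h : w = v
  · subst h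
    rw [cmp_emb]
    exact hu
  · rw [cmp_emb_ne h]
    exact Submodule.zero_mem _

theorem mem_CH_iff [DecidableEq V] (i : ℤ) (x : Hil (G × (V × Finset A))) :
    x ∈ CH ε (KF Γ at') (fun _ v => v) s i ↔ ∀ v, cmp (kv v) x ∈ Hh ε Γ s (at' v) i := by
  rw [mem_CH]
  constructor
  · rintro ⟨h1, h2, h3⟩ v
    rw [mem_CC_iff] at h1
    rw [mem_Hh]
    refine ⟨h1 v, ?_, ?_⟩
    · rw [← Dd_eq_of_mem ε (Finset.subset_univ _) (h1 v), ← cmp_cD, h2, map_zero]
    · intro y hy
      rw [← Dd_eq_of_mem ε (Finset.subset_univ _) hy, ← inner_emb, ← emb_cD]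
      exact h3 _ (emb_mem_CC _ v hy)
  · intro h
    refine ⟨?_, ?_, ?_⟩
    · rw [mem_CC_iff]
      exact fun v => (mem_Hh.mp (h v)).1
    · rw [sum_emb_cmp (cD ε Finset.univ x)]
      apply Finset.sum_eq_zero
      intro v _
      have h1 := mem_Hh.mp (h v)
      rw [cmp_cD, Dd_eq_of_mem ε (Finset.subset_univ _) h1.1, h1.2.1, map_zero]
    · intro y hy
      rw [sum_emb_cmp (cD ε Finset.univ y), sum_inner]
      apply Finset.sum_eq_zero
      intro v _
      have h1 := mem_Hh.mp (h v)
      rw [mem_CC_iff] at hy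
      rw [inner_emb, cmp_cD, Dd_eq_of_mem ε (Finset.subset_univ _) (hy v)]
      exact h1.2.2 _ (hy v)

theorem vdim_CH_split (i : ℤ) :
    vdim (CH ε (KF Γ at') (fun _ v => v) s i) = ∑ v, vdim (Hh ε Γ s (at' v) i) := by
  classical
  unfold vdim
  rw [Fintype.sum_prod_type]
  refine Finset.sum_congr rfl fun v _ => Finset.sum_congr rfl fun T _ => ?_
  have hsg : (sg ((1 : G), ((v, T) : V × Finset A)) : Hil (G × (V × Finset A))) =
      emb (kv v) (sg ((1 : G), T)) := (emb_sg (kv v) T).symm
  have hp : pr (CH ε (KF Γ at') (fun _ v => v) s i) (sg ((1 : G), ((v, T) : V × Finset A))) =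
      emb (kv v) (pr (Hh ε Γ s (at' v) i) (sg ((1 : G), T))) := by
    apply pr_eq
    · apply Submodule.le_topologicalClosure
      rw [mem_CH_iff]
      intro w
      by_cases h : w = v
      · subst h
        rw [cmp_emb]
        have := pr_mem (Hh ε Γ s (at' w) i) (sg ((1 : G), T))
        rwa [(Hh_closed ε Γ s _ i).submodule_topologicalClosure_eq] at this
      · rw [cmp_emb_ne h]
        exact Submodule.zero_mem _
    · rw [hsg, ← map_sub, Submodule.mem_orthogonal']
      intro y hy
      rw [inner_emb]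
      exact (Submodule.mem_orthogonal' _ _).mp (sub_pr_mem _ _) _ ((mem_CH_iff i y).mp hy v)
  rw [hp, norm_emb]

end decomp

/-- The local bound. -/
theorem local_bound {A : Type*} [DecidableEq A] [Fintype A] {V : Type*} [Fintype V]
    {ε : Sgn A} {Γ : SimpleGraph A} {at' : V → Finset A} {op : A → V → V}
    (hX : IsCub (KF Γ at') op) (i : ℤ) :
    vdim (CH ε (KF Γ at') op (gn Γ) i) ≤ ∑ v, bb ε Γ (at' v) i := by
  have h1 := mir_all (ε := ε) (cc Γ) hX (fun v T h => h.2) i
  rw [vdim_CH_split] at h1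
  exact h1

end

end Pool.Agent.Helper30L2
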