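import Pool.Agent.Helper30_Cube.Defs
import Pool.Agent.Helper30_Cube.Local

/-!
# From the plain definitions to the library
-/

namespace Pool.Agent.Special

open Pool.Agent.Helper30L2
open scoped ENNReal InnerProductSpace

set_option linter.unusedSectionVars false

noncomputable section

section one

variable {A : Type} [Fintype A] {Γ : SimpleGraph A} {V : Type} [Fintype V] (X : CubeComplex Γ V)

open Classical in
/-- The labels at a vertex as a finite set. -/
def lab (v : V) : Finset A := Finset.univ.filter fun a => a ∈ X.labels v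

theorem mem_lab {v : V} {a : A} : a ∈ lab X v ↔ a ∈ X.labels v := by
  classical
  unfold lab
  rw [Finset.mem_filter]
  simp

theorem subset_lab {v : V} {T : Finset A} : T ⊆ lab X v ↔ (T : Set A) ⊆ X.labels v := by
  constructor
  · intro h a ha
    exact (mem_lab X).mp (h ha)
  · intro h a ha
    exact (mem_lab X).mpr (h ha)

theorem isCub [DecidableEq A] : IsCub (KF Γ (lab X)) X.move where
  down := by
    rintro v T T' ⟨h1, h2⟩ h
    exact ⟨h.trans h1, h2.subset (by exact_mod_cast h)⟩
  flip := by
    rintro v T t ⟨h1, h2⟩ ht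
    refine ⟨?_, h2⟩
    intro u hu
    rw [mem_lab]
    have h1t := (mem_lab X).mp (h1 ht)
    by_cases h : t = u
    · subst h
      exact X.labels_move h1t
    · exact X.labels_square h1t ((mem_lab X).mp (h1 hu)) (h2 ht hu h)
  inv := by
    rintro v T t ⟨h1, _⟩ ht
    exact X.move_move ((mem_lab X).mp (h1 ht))
  comm := by
    rintro v T t u ⟨h1, h2⟩ ht hu
    by_cases h : t = u
    · subst h
      rfl
    · exact X.move_comm ((mem_lab X).mp (h1 ht)) ((mem_lab X).mp (h1 hu)) (h2 ht hu h)

variable {X}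

theorem isChain_iff [DecidableEq A] {i : ℕ} {x : L2 Γ V} :
    IsChain X i x ↔ x ∈ CC (KF Γ (lab X)) X.move (gn Γ) (i : ℤ) := by
  rw [mem_CC]
  constructor
  · rintro ⟨h1, h2⟩
    refine ⟨?_, ?_⟩
    · intro g v T hT
      by_contra h
      obtain ⟨h3, h4, h5⟩ := h1 g v T h
      exact hT ⟨⟨(subset_lab X).mpr h3, h4⟩, by exact_mod_cast h5⟩
    · rintro g v T ⟨h3, h4⟩ t ht
      exact h2 g v T ((subset_lab X).mp h3) h4 t ht
  · rintro ⟨h1, h2⟩
    refine ⟨?_, ?_⟩
    · intro g v T hT
      by_contra h
      apply hT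
      apply h1
      rintro ⟨⟨h3, h4⟩, h5⟩
      exact h ⟨(subset_lab X).mp h3, h4, by exact_mod_cast h5⟩
    · intro g v T h3 h4 t ht
      exact h2 g v T ⟨(subset_lab X).mpr h3, h4⟩ t ht

open Classical in
theorem isBoundary_iff [inst : DecidableEq A] {r : A → ℕ} (hr : Function.Injective r)
    {x z : L2 Γ V} :
    IsBoundary r x z ↔ z = cD (Sgn.ofInj r hr) Finset.univ x := by
  obtain rfl : inst = fun a b => Classical.propDecidable (a = b) := Subsingleton.elim _ _
  have key : ∀ g v T, (cD (Sgn.ofInj r hr) Finset.univ x : L2 Γ V) (g, (v, T)) =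
      ∑ a ∈ Finset.univ \ T, (-1) ^ (T.filter fun w => r w < r a).card *
        x (g, (v, insert a T)) := by
    intro g v T
    rw [cD_apply]
    rfl
  constructor
  · intro h
    apply Hil.ext'
    rintro ⟨g, v, T⟩
    rw [key]
    exact h g v T
  · rintro rfl
    exact key

variable (X)

theorem harmonic_eq [DecidableEq A] {r : A → ℕ} (hr : Function.Injective r) (i : ℕ) :
    harmonic X r i = CH (Sgn.ofInj r hr) (KF Γ (lab X)) X.move (gn Γ) (i : ℤ) := by
  have : {x | IsHarmonic X r i x} =
      (CH (Sgn.ofInj r hr) (KF Γ (lab X)) X.move (gn Γ) (i : ℤ) :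
        Set (Hil ((cm Γ).Group × (V × Finset A)))) := by
    ext x
    rw [SetLike.mem_coe, mem_CH]
    constructor
    · rintro ⟨h1, h2, h3⟩
      refine ⟨isChain_iff.mp h1, ((isBoundary_iff hr).mp h2).symm, ?_⟩
      intro y hy
      refine h3 y _ (isChain_iff.mpr ?_) ((isBoundary_iff hr).mpr rfl)
      push_cast
      exact hy
    · rintro ⟨h1, h2, h3⟩
      refine ⟨isChain_iff.mpr h1, (isBoundary_iff hr).mpr h2.symm, ?_⟩
      intro y z hy hz
      rw [(isBoundary_iff hr).mp hz]
      apply h3
      have := isChain_iff.mp hy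
      push_cast at this
      exact this
  unfold harmonic
  rw [this]
  exact Submodule.span_eq _

theorem sg_single {J : Type*} [DecidableEq J] (p : J) :
    (sg p : Hil J) = lp.single 2 p (1 : ℂ) := by
  apply Hil.ext'
  intro q
  rw [sg_apply, lp.single_apply]
  by_cases h : q = p
  · subst h; simp
  · simp [h]

theorem betti_eq [inst : DecidableEq A] {r : A → ℕ} (hr : Function.Injective r) (i : ℕ) :
    betti X r i = vdim (CH (Sgn.ofInj r hr) (KF Γ (lab X)) X.move (gn Γ) (i : ℤ)) := by
  obtain rfl : inst = fun a b => Classical.propDecidable (a = b) := Subsingleton.elim _ _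
  classical
  rw [← harmonic_eq X hr]
  unfold betti vdim
  refine Finset.sum_congr rfl fun p _ => ?_
  unfold pr
  rw [← sg_single]

theorem vanishes_iff [DecidableEq A] {i : ℕ} :
    HomologyVanishes X i ↔ ∀ (r : A → ℕ) (_ : Function.Injective r), betti X r i = 0 := by
  constructor
  · intro h r hr
    rw [betti_eq X hr]
    have h1 : CH (Sgn.ofInj r hr) (KF Γ (lab X)) X.move (gn Γ) (i : ℤ) = ⊥ := by
      rw [Submodule.eq_bot_iff]
      intro x hx
      have hx1 := mem_CH.mp hx
      have h2 := h r hr x (isChain_iff.mpr hx1.1) ((isBoundary_iff hr).mpr hx1.2.1.symm)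
      have h3 : x ∈ ((CC (KF Γ (lab X)) X.move (gn Γ) ((i : ℤ) + 1)).map
          ((cD (Sgn.ofInj r hr) Finset.univ :
            Hil ((cm Γ).Group × (V × Finset A)) →L[ℂ] Hil ((cm Γ).Group × (V × Finset A))) :
            Hil ((cm Γ).Group × (V × Finset A)) →ₗ[ℂ]
              Hil ((cm Γ).Group × (V × Finset A)))).topologicalClosure := by
        change x ∈ closure _
        rw [Metric.mem_closure_iff]
        intro δ hδ
        obtain ⟨y, z, hy, hz, hd⟩ := h2 δ hδ
        rw [isBoundary_iff hr] at hz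
        rw [isChain_iff] at hy
        push_cast at hy
        refine ⟨z, ⟨y, hy, hz.symm⟩, ?_⟩
        rw [dist_eq_norm]
        exact hd
      have h4 := mem_orth_closure.mpr hx.2
      rw [Submodule.mem_orthogonal] at h4
      exact inner_self_eq_zero.mp (h4 x h3)
    rw [h1, vdim_bot]
  · intro h r hr x hx hb δ hδ
    have h0 := h r hr
    rw [betti_eq X hr] at h0
    have h1 := eq_bot_of_vdim (CH_inv _) h0
    rw [isChain_iff] at hx
    rw [isBoundary_iff hr] at hb
    have h2 := hodge (A := CC (KF Γ (lab X)) X.move (gn Γ) (i : ℤ))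
      (B := CC (KF Γ (lab X)) X.move (gn Γ) ((i : ℤ) + 1))
      (D := cD (Sgn.ofInj r hr) Finset.univ) (CC_closed _) (CH_hyp (isCub X) i) hx hb.symm
    change pr (CH (Sgn.ofInj r hr) (KF Γ (lab X)) X.move (gn Γ) (i : ℤ)) x = _ at h2
    rw [h1] at h2
    have h3 : pr (⊥ : Submodule ℂ (Hil ((cm Γ).Group × (V × Finset A)))) x = 0 := by
      rw [pr_eq_zero]
      simp
    rw [h3] at h2
    have h4 : x ∈ ((CC (KF Γ (lab X)) X.move (gn Γ) ((i : ℤ) + 1)).map
          ((cD (Sgn.ofInj r hr) Finset.univ :
            Hil ((cm Γ).Group × (V × Finset A)) →L[ℂ] Hil ((cm Γ).Group × (V × Finset A))) :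
            Hil ((cm Γ).Group × (V × Finset A)) →ₗ[ℂ]
              Hil ((cm Γ).Group × (V × Finset A)))).topologicalClosure := by
      rw [eq_comm, sub_eq_zero] at h2
      rw [h2]
      exact pr_mem _ _
    have h6 : x ∈ closure (((CC (KF Γ (lab X)) X.move (gn Γ) ((i : ℤ) + 1)).map
          ((cD (Sgn.ofInj r hr) Finset.univ :
            Hil ((cm Γ).Group × (V × Finset A)) →L[ℂ] Hil ((cm Γ).Group × (V × Finset A))) :
            Hil ((cm Γ).Group × (V × Finset A)) →ₗ[ℂ]
              Hil ((cm Γ).Group × (V × Finset A))) :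
          Submodule ℂ (Hil ((cm Γ).Group × (V × Finset A)))) :
          Set (Hil ((cm Γ).Group × (V × Finset A)))) := h4
    rw [Metric.mem_closure_iff] at h6
    obtain ⟨z, ⟨y, hy, rfl⟩, hd⟩ := h6 δ hδ
    refine ⟨y, cD (Sgn.ofInj r hr) Finset.univ y, ?_, (isBoundary_iff hr).mpr rfl, ?_⟩
    · rw [isChain_iff]
      push_cast
      exact hy
    · rw [dist_eq_norm] at hd
      exact hd

end one

section link

variable {A : Type} [Fintype A] {Γ : SimpleGraph A} {V : Type} [Fintype V]

open Classical in
theorem betti_davis {B : Type} [Fintype B] [inst : DecidableEq B] (Δ : SimpleGraph B) {r : B → ℕ}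
    (hr : Function.Injective r) (i : ℕ) :
    betti (davis Δ) r i = bb (Sgn.ofInj r hr) Δ Finset.univ (i : ℤ) := by
  rw [betti_eq _ hr]
  have h1 : lab (davis Δ) = fun _ => Finset.univ := by
    funext v
    ext a
    rw [mem_lab]
    simp [davis]
  rw [h1]
  change vdim (CH (Sgn.ofInj r hr) (KF Δ (fun _ : Unit => Finset.univ)) (fun _ v => v) (gn Δ)
    (i : ℤ)) = _
  rw [vdim_CH_split]
  simp [bb]

theorem betti_link [DecidableEq A] (X : CubeComplex Γ V) (v : V) [Fintype (X.labels v)]
    {r : A → ℕ} (hr : Function.Injective r) (i : ℕ) :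
    betti (davis (X.link v)) (fun a => r a.1) i =
      bb (Sgn.ofInj r hr) Γ (lab X v) (i : ℤ) := by
  classical
  have hr' : Function.Injective (fun a : X.labels v => r a.1) :=
    fun a b h => Subtype.ext (hr h)
  rw [betti_davis _ hr']
  have e : (Finset.univ : Finset (X.labels v)).map (Function.Embedding.subtype _) = lab X v := by
    ext a
    rw [mem_lab]
    simp
  rw [← e, bb_embed (Function.Embedding.subtype _) (Sgn.ofInj r hr) (X.link v) Γ Finset.univ
    (fun v _ w _ => Iff.rfl) (i : ℤ)]
  exact bb_twist _ _ _ _ _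

theorem local_betti (X : CubeComplex Γ V) [∀ v, Fintype (X.labels v)] {r : A → ℕ}
    (hr : Function.Injective r) (i : ℕ) :
    betti X r i ≤ ∑ v, betti (davis (X.link v)) (fun a => r a.1) i := by
  classical
  rw [betti_eq X hr]
  refine (local_bound (isCub X) (i : ℤ)).trans (le_of_eq ?_)
  refine Finset.sum_congr rfl fun v _ => ?_
  rw [betti_link X v hr]

theorem betti_nonneg (X : CubeComplex Γ V) (r : A → ℕ) (i : ℕ) : 0 ≤ betti X r i := by
  unfold betti
  exact Finset.sum_nonneg fun _ _ => sq_nonneg _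

theorem local_vanish (X : CubeComplex Γ V) [∀ v, Fintype (X.labels v)] (i : ℕ)
    (h : ∀ v, HomologyVanishes (davis (X.link v)) i) : HomologyVanishes X i := by
  classical
  rw [vanishes_iff]
  intro r hr
  refine le_antisymm ?_ (betti_nonneg X r i)
  refine (local_betti X hr i).trans (le_of_eq ?_)
  apply Finset.sum_eq_zero
  intro v _
  exact (vanishes_iff _).mp (h v) _ (fun a b h => Subtype.ext (hr h))

end link

end

end Pool.Agent.Special
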