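import Pool.Agent.Helper30_Cube.Bridge
import Pool.Agent.Helper30_L2.Class

/-!
# Special cube complexes whose vertex links are in the class `Built`
-/

namespace Pool.Agent.Special

open Pool.Agent.Helper30L2

noncomputable section

theorem davis_vanishes_iff {B : Type} [Fintype B] (Δ : SimpleGraph B) (i : ℕ) :
    HomologyVanishes (davis Δ) i ↔ Pool.Agent.Davis.HomologyVanishes Δ i := by
  classical
  obtain ⟨r, hr⟩ := exists_inj B
  rw [Pool.Agent.Davis.vanishes_iff (Sgn.ofInj r hr), vanishes_iff]
  constructor
  · intro h
    rw [← betti_davis Δ hr]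
    exact h r hr
  · intro h r' hr'
    rw [betti_davis Δ hr', bb_twist (Sgn.ofInj r hr)]
    exact h

theorem special_built {A V : Type} [Fintype A] [Fintype V] {Γ : SimpleGraph A}
    (X : CubeComplex Γ V) {n : ℕ} (h : ∀ v, Pool.Agent.Davis.Built (X.labels v) (X.link v) n)
    {i : ℕ} (hi : 2 * i ≠ n) : HomologyVanishes X i := by
  classical
  apply local_vanish
  intro v
  rw [davis_vanishes_iff]
  exact Pool.Agent.Davis.built_singer (h v) i hi

end

end Pool.Agent.Special
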