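import Pool.Agent.Helper30_L2.Split

/-!
# Cube complexes with labelled walls: chains and boundary operators
-/

namespace Pool.Agent.Helper30L2

open scoped ENNReal InnerProductSpace
open Filter

set_option linter.unusedSectionVars false

noncomputable section

section ops

variable {A : Type*} [DecidableEq A] (ε : Sgn A) {V : Type*} {G : Type*} [Group G]

/-- Contraction with the label `a`. -/
def cio (a : A) : Hil (G × (V × Finset A)) →L[ℂ] Hil (G × (V × Finset A)) :=
  wmap (fun p => (p.1, (p.2.1, insert a p.2.2))) (fun p => if a ∈ p.2.2 then 0 else ε.ε a p.2.2)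
    (fun p => by
    split_ifs
    · simp
    · exact ε.norm_le a p.2.2) (by
    rintro ⟨g, v, T⟩ ⟨h, w, U⟩ h1 h2 h3
    simp only [ne_eq, ite_eq_left_iff, Classical.not_imp] at h1 h2
    simp only [Prod.mk.injEq] at h3
    refine Prod.ext h3.1 (Prod.ext h3.2.1 ?_)
    have := congrArg (fun X => X.erase a) h3.2.2
    simpa [Finset.erase_insert h1.1, Finset.erase_insert h2.1] using this)

theorem cio_apply (a : A) (x : Hil (G × (V × Finset A))) (g : G) (v : V) (T : Finset A) :
    cio ε a x (g, (v, T)) = if a ∈ T then 0 else ε.ε a T * x (g, (v, insert a T)) := by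
  unfold cio
  rw [wmap_apply]
  split_ifs <;> simp

/-- Adjoining the label `a`. -/
def cjo (a : A) : Hil (G × (V × Finset A)) →L[ℂ] Hil (G × (V × Finset A)) :=
  wmap (fun p => (p.1, (p.2.1, p.2.2.erase a)))
    (fun p => if a ∈ p.2.2 then ε.ε a (p.2.2.erase a) else 0)
    (fun p => by
    split_ifs
    · exact ε.norm_le a _
    · simp) (by
    rintro ⟨g, v, T⟩ ⟨h, w, U⟩ h1 h2 h3
    simp only [ne_eq, ite_eq_right_iff, Classical.not_imp] at h1 h2
    simp only [Prod.mk.injEq] at h3
    refine Prod.ext h3.1 (Prod.ext h3.2.1 ?_)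
    have := congrArg (fun X => insert a X) h3.2.2
    simpa [Finset.insert_erase h1.1, Finset.insert_erase h2.1] using this)

theorem cjo_apply (a : A) (x : Hil (G × (V × Finset A))) (g : G) (v : V) (T : Finset A) :
    cjo ε a x (g, (v, T)) = if a ∈ T then ε.ε a (T.erase a) * x (g, (v, T.erase a)) else 0 := by
  unfold cjo
  rw [wmap_apply]
  split_ifs <;> simp

theorem cio_equi (a : A) :
    Equi (cio ε a : Hil (G × (V × Finset A)) →L[ℂ] Hil (G × (V × Finset A))) := by
  intro g x
  apply Hil.ext'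
  rintro ⟨h, v, T⟩
  rw [Lt_apply, cio_apply, cio_apply]
  simp

theorem cio_cio_self (a : A) (x : Hil (G × (V × Finset A))) : cio ε a (cio ε a x) = 0 := by
  apply Hil.ext'
  rintro ⟨h, v, T⟩
  rw [cio_apply, cio_apply]
  simp

theorem cio_anti (a b : A) (x : Hil (G × (V × Finset A))) :
    cio ε a (cio ε b x) = - cio ε b (cio ε a x) := by
  by_cases hvw : a = b
  · subst hvw
    rw [cio_cio_self]; simp
  · apply Hil.ext'
    rintro ⟨h, v, T⟩
    rw [lp.coeFn_neg, Pi.neg_apply, cio_apply, cio_apply, cio_apply, cio_apply]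
    have hwv : b ≠ a := fun h => hvw h.symm
    by_cases h1 : a ∈ T
    · simp [h1]
    · by_cases h2 : b ∈ T
      · simp [h2]
      · rw [if_neg h1, if_neg h2]
        simp only [Finset.mem_insert, h1, h2, hvw, hwv, or_self, if_false]
        rw [← mul_assoc, ← mul_assoc, ε.anti b a T hwv h2 h1, Finset.insert_comm]
        ring

theorem cio_cjo (a : A) (x : Hil (G × (V × Finset A))) (g : G) (v : V) (T : Finset A) :
    cio ε a (cjo ε a x) (g, (v, T)) = if a ∈ T then 0 else x (g, (v, T)) := by
  rw [cio_apply]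
  split_ifs with h
  · rfl
  · rw [cjo_apply, if_pos (Finset.mem_insert_self _ _), Finset.erase_insert h, ← mul_assoc,
      ε.sq a T h, one_mul]

theorem cjo_cio (a : A) (x : Hil (G × (V × Finset A))) (g : G) (v : V) (T : Finset A) :
    cjo ε a (cio ε a x) (g, (v, T)) = if a ∈ T then x (g, (v, T)) else 0 := by
  rw [cjo_apply]
  split_ifs with h
  · rw [cio_apply, if_neg (Finset.notMem_erase a T), ← mul_assoc,
      ε.sq a _ (Finset.notMem_erase a T), one_mul, Finset.insert_erase h]
  · rfl

/-- The boundary operator of the label set `S`. -/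
def cD (S : Finset A) : Hil (G × (V × Finset A)) →L[ℂ] Hil (G × (V × Finset A)) :=
  ∑ a ∈ S, cio ε a

theorem cD_apply' (S : Finset A) (x : Hil (G × (V × Finset A))) :
    cD ε S x = ∑ a ∈ S, cio ε a x := by
  unfold cD
  simp

theorem cD_apply (S : Finset A) (x : Hil (G × (V × Finset A))) (g : G) (v : V) (T : Finset A) :
    cD ε S x (g, (v, T)) = ∑ a ∈ S \ T, ε.ε a T * x (g, (v, insert a T)) := by
  rw [cD_apply', ← inner_sg_left, inner_sum]
  rw [← Finset.sum_filter_add_sum_filter_not S (fun a => a ∈ T)]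
  have h1 : ∑ a ∈ S with a ∈ T, ⟪sg (g, (v, T)), cio ε a x⟫_ℂ = 0 := by
    apply Finset.sum_eq_zero
    intro a ha
    rw [Finset.mem_filter] at ha
    rw [inner_sg_left, cio_apply, if_pos ha.2]
  rw [h1, zero_add]
  apply Finset.sum_congr
  · ext a
    simp
  · intro a ha
    rw [Finset.mem_sdiff] at ha
    rw [inner_sg_left, cio_apply, if_neg ha.2]

theorem cD_equi (S : Finset A) :
    Equi (cD ε S : Hil (G × (V × Finset A)) →L[ℂ] Hil (G × (V × Finset A))) :=
  Equi.sum _ _ fun a _ => cio_equi ε a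

theorem cD_cD (S : Finset A) (x : Hil (G × (V × Finset A))) : cD ε S (cD ε S x) = 0 := by
  have h : cD ε S (cD ε S x) = - cD ε S (cD ε S x) := by
    conv_lhs => rw [cD_apply']
    conv_rhs => rw [cD_apply']
    simp only [cD_apply', map_sum]
    conv_lhs => rw [Finset.sum_comm]
    rw [← Finset.sum_neg_distrib]
    refine Finset.sum_congr rfl fun v _ => ?_
    rw [← Finset.sum_neg_distrib]
    refine Finset.sum_congr rfl fun w _ => ?_
    rw [cio_anti]
  have h2 : (2 : ℂ) • cD ε S (cD ε S x) = 0 := by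
    rw [two_smul]
    nth_rw 1 [h]
    simp
  rcases smul_eq_zero.mp h2 with h3 | h3
  · norm_num at h3
  · exact h3

theorem cio_cD {a : A} {S : Finset A} (x : Hil (G × (V × Finset A))) :
    cio ε a (cD ε S x) = - cD ε S (cio ε a x) := by
  rw [cD_apply', cD_apply', map_sum, ← Finset.sum_neg_distrib]
  refine Finset.sum_congr rfl fun b _ => ?_
  rw [cio_anti]

theorem cD_insert {a : A} {S : Finset A} (ha : a ∉ S) (x : Hil (G × (V × Finset A))) :
    cD ε (insert a S) x = cio ε a x + cD ε S x := by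
  rw [cD_apply', cD_apply', Finset.sum_insert ha]

end ops

section chains

variable {A : Type*} [DecidableEq A] {V : Type*} {G : Type*} [Group G]

/-- Cells and flips of a cube complex with labelled walls: `K v T` says that the labels in `T` span
a cube at the vertex `v`; `op a v` is the other end of the edge with label `a` at `v`. -/
structure IsCub (K : V → Finset A → Prop) (op : A → V → V) : Prop where
  down : ∀ {v T T'}, K v T → T' ⊆ T → K v T'
  flip : ∀ {v T t}, K v T → t ∈ T → K (op t v) T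
  inv : ∀ {v T t}, K v T → t ∈ T → op t (op t v) = v
  comm : ∀ {v T t u}, K v T → t ∈ T → u ∈ T → op t (op u v) = op u (op t v)

/-- The chains in degree `i`. -/
def CC (K : V → Finset A → Prop) (op : A → V → V) (s : A → G) (i : ℤ) :
    Submodule ℂ (Hil (G × (V × Finset A))) where
  carrier := {x | (∀ g v T, ¬ (K v T ∧ (T.card : ℤ) = i) → x (g, (v, T)) = 0) ∧
    ∀ g v T, K v T → ∀ t ∈ T, x (g * s t, (op t v, T)) = - x (g, (v, T))}
  zero_mem' := by
    constructor
    · intro g v T _; simp
    · intro g v T _ t _; simp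
  add_mem' := by
    rintro x y ⟨hx1, hx2⟩ ⟨hy1, hy2⟩
    constructor
    · intro g v T h
      rw [lp.coeFn_add, Pi.add_apply, hx1 g v T h, hy1 g v T h, add_zero]
    · intro g v T hK t ht
      rw [lp.coeFn_add, Pi.add_apply, Pi.add_apply, hx2 g v T hK t ht, hy2 g v T hK t ht]
      ring
  smul_mem' := by
    rintro c x ⟨hx1, hx2⟩
    constructor
    · intro g v T h
      rw [lp.coeFn_smul, Pi.smul_apply, hx1 g v T h, smul_zero]
    · intro g v T hK t ht
      rw [lp.coeFn_smul, Pi.smul_apply, Pi.smul_apply, hx2 g v T hK t ht, smul_neg]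

variable {K K' : V → Finset A → Prop} {op op' : A → V → V} {s : A → G}

theorem mem_CC {i : ℤ} {x : Hil (G × (V × Finset A))} :
    x ∈ CC K op s i ↔ (∀ g v T, ¬ (K v T ∧ (T.card : ℤ) = i) → x (g, (v, T)) = 0) ∧
      ∀ g v T, K v T → ∀ t ∈ T, x (g * s t, (op t v, T)) = - x (g, (v, T)) := Iff.rfl

theorem CC_closed (i : ℤ) :
    IsClosed (CC K op s i : Set (Hil (G × (V × Finset A)))) := by
  have : (CC K op s i : Set (Hil (G × (V × Finset A)))) =
      (⋂ g, ⋂ v, ⋂ T, ⋂ (_ : ¬ (K v T ∧ (T.card : ℤ) = i)), {x | x (g, (v, T)) = 0}) ∩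
      (⋂ g, ⋂ v, ⋂ T, ⋂ (_ : K v T), ⋂ t, ⋂ (_ : t ∈ T),
        {x | x (g * s t, (op t v, T)) = - x (g, (v, T))}) := by
    ext x
    simp only [SetLike.mem_coe, mem_CC, Set.mem_inter_iff, Set.mem_iInter, Set.mem_ofPred_eq]
  rw [this]
  apply IsClosed.inter
  · refine isClosed_iInter fun g => isClosed_iInter fun v => isClosed_iInter fun T =>
      isClosed_iInter fun _ => ?_
    exact isClosed_eq (continuous_ev _) continuous_const
  · refine isClosed_iInter fun g => isClosed_iInter fun v => isClosed_iInter fun T =>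
      isClosed_iInter fun _ => isClosed_iInter fun t => isClosed_iInter fun _ => ?_
    exact isClosed_eq (continuous_ev _) (continuous_ev _).neg

theorem CC_inv (i : ℤ) : Inv (CC K op s i) := by
  intro g x hx
  rw [mem_CC] at hx ⊢
  constructor
  · intro h v T hT
    rw [Lt_apply]
    exact hx.1 _ _ _ hT
  · intro h v T hK t ht
    rw [Lt_apply, Lt_apply]
    simp only
    rw [← mul_assoc]
    exact hx.2 _ _ _ hK _ ht

variable (ε : Sgn A)

theorem cD_mem (hX : IsCub K op) {S : Finset A} {i : ℤ} {x : Hil (G × (V × Finset A))}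
    (hx : x ∈ CC K op s (i + 1)) : cD ε S x ∈ CC K op s i := by
  rw [mem_CC] at hx ⊢
  constructor
  · intro g v T hT
    rw [cD_apply]
    apply Finset.sum_eq_zero
    intro a ha
    rw [Finset.mem_sdiff] at ha
    rw [hx.1 g v _ ?_, mul_zero]
    rintro ⟨h1, h2⟩
    apply hT
    refine ⟨hX.down h1 (Finset.subset_insert a T), ?_⟩
    rw [Finset.card_insert_of_notMem ha.2] at h2
    push_cast at h2
    linarith
  · intro g v T hK t ht
    rw [cD_apply, cD_apply, ← Finset.sum_neg_distrib]
    refine Finset.sum_congr rfl fun a ha => ?_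
    rw [Finset.mem_sdiff] at ha
    by_cases h : K v (insert a T)
    · rw [hx.2 g v _ h t (Finset.mem_insert_of_mem ht)]
      ring
    · have h' : ¬ K (op t v) (insert a T) := by
        intro h2
        apply h
        have h3 := hX.flip h2 (Finset.mem_insert_of_mem ht)
        rwa [hX.inv hK ht] at h3
      rw [hx.1 _ _ _ (fun h2 => h' h2.1), hx.1 _ _ _ (fun h2 => h h2.1)]
      ring

/-- The boundaries. -/
def CB (ε : Sgn A) (S : Finset A) (M : Submodule ℂ (Hil (G × (V × Finset A)))) :
    Submodule ℂ (Hil (G × (V × Finset A))) :=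
  M.map ((cD ε S : Hil (G × (V × Finset A)) →L[ℂ] Hil (G × (V × Finset A))) :
      Hil (G × (V × Finset A)) →ₗ[ℂ] Hil (G × (V × Finset A)))

variable [Fintype A]

/-- The harmonic chains. -/
def CH (ε : Sgn A) (K : V → Finset A → Prop) (op : A → V → V) (s : A → G) (i : ℤ) :
    Submodule ℂ (Hil (G × (V × Finset A))) :=
  Harm (CC K op s i) (CC K op s (i + 1)) (cD ε Finset.univ)

variable {ε}

theorem mem_CH {i : ℤ} {x : Hil (G × (V × Finset A))} :
    x ∈ CH ε K op s i ↔ x ∈ CC K op s i ∧ cD ε Finset.univ x = 0 ∧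
      ∀ y ∈ CC K op s (i + 1), ⟪cD ε Finset.univ y, x⟫_ℂ = 0 := mem_Harm

theorem CH_closed (i : ℤ) : IsClosed (CH ε K op s i : Set (Hil (G × (V × Finset A)))) :=
  Harm_closed (CC_closed i)

theorem CH_inv (i : ℤ) : Inv (CH ε K op s i) :=
  Harm_inv (CC_inv i) (CC_inv (i + 1)) (cD_equi ε Finset.univ)

theorem CH_hyp (hX : IsCub K op) (i : ℤ) : ∀ y ∈ CC K op s (i + 1),
    cD ε Finset.univ y ∈ CC K op s i ∧ cD ε Finset.univ (cD ε Finset.univ y) = 0 :=
  fun _ hy => ⟨cD_mem ε hX hy, cD_cD ε Finset.univ _⟩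

end chains

end

end Pool.Agent.Helper30L2
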