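import Pool.Agent.Helper30_L2.Matrix

/-!
# Cube complexes with labelled walls and their square-summable Betti numbers

Let `X` be a finite special cube complex.  Label every edge by the hyperplane that it crosses, and
let `Γ` be the graph of the hyperplanes, two being adjacent if they cross.  At a vertex `v` there is
at most one edge with a given label (hyperplanes do not self-osculate), and two edges at `v` span a
square if and only if their labels are adjacent (hyperplanes do not inter-osculate); the cubes at
`v` correspond to the cliques of labels of edges at `v`.  So `X` is given by the labels of the edges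
at every vertex and by the other ends of these edges, as in `CubeComplex`.

The right-angled Coxeter group `W` of `Γ` acts freely on the covering `Y` of `X` with vertices
`(g, v)`, where the edge with label `a` at `(g, v)` ends in `(g a, move a v)`, and `X = W \ Y`.  By
Haglund and Wise the fundamental group of `X` injects into `W`, hence all components of `Y` are
copies of the universal covering of `X`, and the square-summable Betti numbers of `Y` with respect
to `W` are those of the universal covering with respect to the fundamental group of `X`.
-/

namespace Pool.Agent.Special

open scoped ENNReal InnerProductSpace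
open Classical

noncomputable section

/-- The right-angled Coxeter group of a graph. -/
abbrev Racg {A : Type} (Γ : SimpleGraph A) : Type := (Pool.Agent.Davis.racgMatrix Γ).Group

/-- The generator of the right-angled Coxeter group given by a vertex of the graph. -/
abbrev gen {A : Type} (Γ : SimpleGraph A) (a : A) : Racg Γ :=
  (Pool.Agent.Davis.racgMatrix Γ).simple a

/-- A cube complex with vertex set `V` and walls labelled by the vertices of the graph `Γ`. -/
structure CubeComplex {A : Type} (Γ : SimpleGraph A) (V : Type) where
  /-- the labels of the edges at a vertex -/
  labels : V → Set A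
  /-- the other end of the edge with label `a` at the vertex `v`, for `a` in `labels v` -/
  move : A → V → V
  labels_move : ∀ {v a}, a ∈ labels v → a ∈ labels (move a v)
  move_move : ∀ {v a}, a ∈ labels v → move a (move a v) = v
  labels_square : ∀ {v a b}, a ∈ labels v → b ∈ labels v → Γ.Adj a b → b ∈ labels (move a v)
  move_comm : ∀ {v a b}, a ∈ labels v → b ∈ labels v → Γ.Adj a b →
    move a (move b v) = move b (move a v)

/-- The complex with one vertex at which all edges are mirrored.  Its covering `Y` is the Davis
complex of the right-angled Coxeter group of `Γ`. -/
def davis {A : Type} (Γ : SimpleGraph A) : CubeComplex Γ Unit where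
  labels _ := Set.univ
  move _ v := v
  labels_move h := h
  move_move _ := rfl
  labels_square _ h _ := h
  move_comm _ _ _ := rfl

/-- The link of a vertex, given by the graph of the labels of the edges at the vertex. -/
def CubeComplex.link {A : Type} {Γ : SimpleGraph A} {V : Type} (X : CubeComplex Γ V) (v : V) :
    SimpleGraph (X.labels v) :=
  Γ.induce (X.labels v)

variable {A : Type} {Γ : SimpleGraph A} {V : Type}

/-- The Hilbert space of square-summable functions of a group element `g`, a vertex `v` and a finite
set `T` of labels. -/
abbrev L2 (Γ : SimpleGraph A) (V : Type) : Type := lp (fun _ : Racg Γ × (V × Finset A) => ℂ) 2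

/-- `x` is a square-summable chain of dimension `i` on the covering `Y`.  The value
`x (g, (v, T))` is the coefficient of the cube with vertex `(g, v)` spanned by the edges with labels
in `T`; the orientation of the cube changes if it is described by the other end of an edge. -/
structure IsChain (X : CubeComplex Γ V) (i : ℕ) (x : L2 Γ V) : Prop where
  support : ∀ g v (T : Finset A), x (g, (v, T)) ≠ 0 →
    (T : Set A) ⊆ X.labels v ∧ Γ.IsClique (T : Set A) ∧ T.card = i
  orientation : ∀ g v (T : Finset A), (T : Set A) ⊆ X.labels v → Γ.IsClique (T : Set A) →
    ∀ t ∈ T, x (g * gen Γ t, (X.move t v, T)) = - x (g, (v, T))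

/-- `z` is the cellular boundary of the chain `x`.  The injective function `r` numbers the labels;
it is used for the signs. -/
def IsBoundary [Fintype A] (r : A → ℕ) (x z : L2 Γ V) : Prop :=
  ∀ g v T, z (g, (v, T)) =
    ∑ a ∈ Finset.univ \ T, (-1) ^ (T.filter fun w => r w < r a).card * x (g, (v, insert a T))

/-- `x` is a harmonic square-summable chain of dimension `i`: a cycle that is orthogonal to all
boundaries. -/
def IsHarmonic [Fintype A] (X : CubeComplex Γ V) (r : A → ℕ) (i : ℕ) (x : L2 Γ V) : Prop :=
  IsChain X i x ∧ IsBoundary r x 0 ∧
    ∀ y z, IsChain X (i + 1) y → IsBoundary r y z → ⟪z, x⟫_ℂ = 0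

/-- The space of harmonic chains of dimension `i`. -/
def harmonic [Fintype A] (X : CubeComplex Γ V) (r : A → ℕ) (i : ℕ) : Submodule ℂ (L2 Γ V) :=
  Submodule.span ℂ {x | IsHarmonic X r i x}

/-- The `i`-th square-summable Betti number of the covering `Y` with respect to the right-angled
Coxeter group of `Γ`: the von Neumann dimension of the space of harmonic chains, that is, the sum
over all pairs `(v, T)` of the squared norm of the orthogonal projection of the function that is one
at `(1, (v, T))` and zero elsewhere. -/
def betti [Fintype A] [Fintype V] (X : CubeComplex Γ V) (r : A → ℕ) (i : ℕ) : ℝ :=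
  ∑ p : V × Finset A, ‖(harmonic X r i).topologicalClosure.starProjection
    (lp.single 2 ((1 : Racg Γ), p) (1 : ℂ))‖ ^ 2

/-- The reduced square-summable homology of the covering `Y` vanishes in degree `i`: every
square-summable cycle is a limit of boundaries of square-summable chains. -/
def HomologyVanishes [Fintype A] (X : CubeComplex Γ V) (i : ℕ) : Prop :=
  ∀ r : A → ℕ, Function.Injective r → ∀ x : L2 Γ V, IsChain X i x → IsBoundary r x 0 →
    ∀ δ : ℝ, 0 < δ → ∃ y z : L2 Γ V, IsChain X (i + 1) y ∧ IsBoundary r y z ∧ ‖x - z‖ < δ

end

end Pool.Agent.Special
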