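import Pool.Agent.Helper30_Cube.Cub

/-!
# Right translations combined with a permutation of the index set, and the tree lemma
-/

namespace Pool.Agent.Helper30L2

open scoped ENNReal InnerProductSpace
open Filter

set_option linter.unusedSectionVars false

noncomputable section

section Rp

variable {G : Type*} [Group G] {I : Type*}

/-- Right translation by `a` combined with the permutation `π` of the index set. -/
def Rp (a : G) (π : I ≃ I) : Hil (G × I) →L[ℂ] Hil (G × I) :=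
  wmap (fun p => (p.1 * a, π p.2)) (fun _ => 1) (fun _ => by simp) (by
    rintro ⟨b, i⟩ ⟨c, j⟩ _ _ h
    simp only [Prod.mk.injEq, mul_left_inj, EmbeddingLike.apply_eq_iff_eq] at h
    exact Prod.ext h.1 h.2)

@[simp] theorem Rp_apply (a : G) (π : I ≃ I) (x : Hil (G × I)) (p : G × I) :
    Rp a π x p = x (p.1 * a, π p.2) := by
  unfold Rp
  rw [wmap_apply]
  simp

theorem Rp_equi (a : G) (π : I ≃ I) : Equi (Rp a π : Hil (G × I) →L[ℂ] Hil (G × I)) := by
  intro g x
  apply Hil.ext'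
  intro p
  simp [mul_assoc]

theorem inner_Rp (a : G) (π : I ≃ I) (x y : Hil (G × I)) :
    ⟪Rp a π x, y⟫_ℂ = ⟪x, Rp a⁻¹ π.symm y⟫_ℂ := by
  rw [Hil.inner_eq, Hil.inner_eq]
  rw [← Equiv.tsum_eq ((Equiv.mulRight a⁻¹).prodCongr π.symm)]
  refine tsum_congr fun p => ?_
  obtain ⟨g, i⟩ := p
  simp

/-- A flip: an involution of the group and of the index set. -/
structure Flp (a : G) (π : I ≃ I) : Prop where
  sq : a * a = 1
  pi : ∀ i, π (π i) = i

variable {a : G} {π : I ≃ I}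

theorem Flp.symm (h : Flp a π) : π.symm = π := by
  ext i
  rw [Equiv.symm_apply_eq, h.pi]

theorem Flp.inv (h : Flp a π) : a⁻¹ = a := inv_of_sq h.sq

theorem Flp.Rp_sq (h : Flp a π) (x : Hil (G × I)) : Rp a π (Rp a π x) = x := by
  apply Hil.ext'
  intro p
  simp [mul_assoc, h.sq, h.pi]

theorem Flp.inner (h : Flp a π) (x y : Hil (G × I)) :
    ⟪Rp a π x, y⟫_ℂ = ⟪x, Rp a π y⟫_ℂ := by
  rw [inner_Rp, h.inv, h.symm]

variable (a π) in
/-- The part of a subspace on which the flip is `-1`. -/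
def ngp (K : Submodule ℂ (Hil (G × I))) : Submodule ℂ (Hil (G × I)) :=
  K ⊓ LinearMap.ker ((1 + Rp a π : Hil (G × I) →L[ℂ] Hil (G × I)) :
    Hil (G × I) →ₗ[ℂ] Hil (G × I))

theorem mem_ngp {K : Submodule ℂ (Hil (G × I))} {x : Hil (G × I)} :
    x ∈ ngp a π K ↔ x ∈ K ∧ Rp a π x = -x := by
  unfold ngp
  rw [Submodule.mem_inf, LinearMap.mem_ker]
  refine and_congr Iff.rfl ?_
  change x + Rp a π x = 0 ↔ _
  rw [add_comm, add_eq_zero_iff_eq_neg]

theorem ngp_le (K : Submodule ℂ (Hil (G × I))) : ngp a π K ≤ K := inf_le_left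

theorem ngp_closed {K : Submodule ℂ (Hil (G × I))}
    (hK : IsClosed (K : Set (Hil (G × I)))) : IsClosed (ngp a π K : Set (Hil (G × I))) := by
  unfold ngp
  exact hK.inter (ContinuousLinearMap.isClosed_ker _)

theorem ngp_inv {K : Submodule ℂ (Hil (G × I))} (hK : Inv K) : Inv (ngp a π K) := by
  unfold ngp
  exact hK.inf (Inv.ker (Equi.one.add (Rp_equi a π)))

theorem ngp_mono {K L : Submodule ℂ (Hil (G × I))} (h : K ≤ L) : ngp a π K ≤ ngp a π L :=
  inf_le_inf_right _ h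

theorem pr_ngp (h : Flp a π) {K : Submodule ℂ (Hil (G × I))}
    (hKc : IsClosed (K : Set (Hil (G × I)))) (hKa : ∀ x ∈ K, Rp a π x ∈ K) (x : Hil (G × I)) :
    pr (ngp a π K) x = (2⁻¹ : ℂ) • (pr K x - Rp a π (pr K x)) := by
  have hKcl : K.topologicalClosure = K := hKc.submodule_topologicalClosure_eq
  have hm : pr K x ∈ K := by
    have := pr_mem K x
    rwa [hKcl] at this
  apply pr_eq
  · apply Submodule.le_topologicalClosure
    rw [mem_ngp]
    refine ⟨Submodule.smul_mem _ _ (Submodule.sub_mem _ hm (hKa _ hm)), ?_⟩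
    rw [map_smul, map_sub, h.Rp_sq, ← smul_neg, neg_sub]
  · rw [Submodule.mem_orthogonal]
    intro w hw
    rw [mem_ngp] at hw
    rw [inner_sub_right, inner_smul_right, inner_sub_right]
    have h1 : ⟪w, Rp a π (pr K x)⟫_ℂ = - ⟪w, pr K x⟫_ℂ := by
      rw [← h.inner, hw.2, inner_neg_left]
    rw [h1, inner_pr_right (K.le_topologicalClosure hw.1)]
    ring

/-- Flips commute with projections to invariant subspaces. -/
theorem Rp_pr (h : Flp a π) {K : Submodule ℂ (Hil (G × I))}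
    (hK : IsClosed (K : Set (Hil (G × I)))) (hKa : ∀ x ∈ K, Rp a π x ∈ K) (x : Hil (G × I)) :
    Rp a π (pr K x) = pr K (Rp a π x) := by
  symm
  apply pr_eq
  · apply Submodule.le_topologicalClosure
    apply hKa
    have := pr_mem K x
    rwa [hK.submodule_topologicalClosure_eq] at this
  · rw [← map_sub, Submodule.mem_orthogonal]
    intro w hw
    rw [← h.inner]
    have h1 := sub_pr_mem K x
    rw [Submodule.mem_orthogonal] at h1
    exact h1 _ (hKa w hw)

variable [Fintype I]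

theorem vdim_ngp (h : Flp a π) {K : Submodule ℂ (Hil (G × I))}
    (hKc : IsClosed (K : Set (Hil (G × I)))) (hKa : ∀ x ∈ K, Rp a π x ∈ K)
    (h0 : ∀ i : I, (pr K (sg ((1 : G), i))) (a, π i) = 0) :
    vdim (ngp a π K) = 2⁻¹ * vdim K := by
  unfold vdim
  rw [Finset.mul_sum]
  refine Finset.sum_congr rfl fun i _ => ?_
  have h1 : (((‖pr (ngp a π K) (sg ((1 : G), i))‖ ^ 2 : ℝ)) : ℂ) =
      ((2⁻¹ * ‖pr K (sg ((1 : G), i))‖ ^ 2 : ℝ) : ℂ) := by
    rw [Complex.ofReal_mul, norm_pr_sq, norm_pr_sq, pr_ngp h hKc hKa, inner_smul_right,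
      inner_sub_right, inner_sg_left, inner_sg_left, Rp_apply]
    simp [h0]
  exact_mod_cast h1

end Rp

section Pm

variable {G : Type*} [Group G] {I : Type*}

/-- The permutation of the index set. -/
abbrev Pm (π : I ≃ I) : Hil (G × I) →L[ℂ] Hil (G × I) := Rp (1 : G) π

variable {U W : Type*} [Group U] [Group W] {j : U →* W} {hj : Function.Injective j} {a : W}
  {π : I ≃ I}

theorem res_Rp (hja : ∀ u, j u * a = a * j u) (g : W) (x : Hil (W × I)) :
    res j hj (Equiv.refl I) g (Rp a π x) = Pm π (res j hj (Equiv.refl I) (g * a) x) := by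
  apply Hil.ext'
  rintro ⟨u, i⟩
  simp [mul_assoc, hja]

theorem Rp_Ind (hja : ∀ u, j u * a = a * j u) {X : Submodule ℂ (Hil (U × I))}
    (hX : ∀ x ∈ X, Pm π x ∈ X) :
    ∀ x ∈ Ind j hj (Equiv.refl I) X, Rp a π x ∈ Ind j hj (Equiv.refl I) X := by
  intro x hx
  rw [mem_Ind] at hx ⊢
  intro g
  rw [res_Rp hja]
  exact hX _ (hx _)

theorem vdim_ngp_Ind [Fintype I] (h : Flp a π) (hja : ∀ u, j u * a = a * j u)
    (haj : a ∉ Set.range j) {X : Submodule ℂ (Hil (U × I))}
    (hXc : IsClosed (X : Set (Hil (U × I)))) (hXi : Inv X) (hX : ∀ x ∈ X, Pm π x ∈ X) :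
    vdim (ngp a π (Ind j hj (Equiv.refl I) X)) = 2⁻¹ * vdim X := by
  rw [vdim_ngp h (Ind_closed hXc) (Rp_Ind hja hX), vdim_Ind hXc hXi]
  intro i
  rw [← ext_sg (φ := j) (hφ := hj) (κ := Equiv.refl I), pr_Ind_ext hXc hXi,
    ext_apply_not _ _ _ _ haj]

end Pm

section tree

variable {U G W : Type*} [Group U] [Group G] [Group W] {I : Type*}
  {ψ : U →* G} {hψ : Function.Injective ψ} {φ : G →* W} {hφ : Function.Injective φ}
  {j : U →* W} {hj : Function.Injective j} {a : W} {π : I ≃ I}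

/-- The kernel of the connecting map. -/
def KP (a : W) (π : I ≃ I) (j : U →* W) (hj : Function.Injective j) (φ : G →* W)
    (hφ : Function.Injective φ) (X : Submodule ℂ (Hil (U × I)))
    (N : Submodule ℂ (Hil (G × I))) : Submodule ℂ (Hil (W × I)) :=
  ngp a π (Ind j hj (Equiv.refl I) X) ⊓ LinearMap.ker
    ((pr (Ind φ hφ (Equiv.refl I) N) : Hil (W × I) →L[ℂ] Hil (W × I)) :
      Hil (W × I) →ₗ[ℂ] Hil (W × I))

theorem mem_KP {X : Submodule ℂ (Hil (U × I))} {N : Submodule ℂ (Hil (G × I))}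
    {x : Hil (W × I)} : x ∈ KP a π j hj φ hφ X N ↔ x ∈ Ind j hj (Equiv.refl I) X ∧
      Rp a π x = -x ∧ pr (Ind φ hφ (Equiv.refl I) N) x = 0 := by
  unfold KP
  rw [Submodule.mem_inf, mem_ngp, and_assoc]
  rfl

theorem KP_inv {X : Submodule ℂ (Hil (U × I))} {N : Submodule ℂ (Hil (G × I))} :
    Inv (KP a π j hj φ hφ X N) :=
  (ngp_inv (Ind_inv _)).inf (Inv.ker (Ind_inv _).equi_pr)

/-- The key orthogonality: sums over `U`-cosets vanish. -/
theorem tree_auxp (h : Flp a π) {P : Set W} (hjφ : j = φ.comp ψ)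
    (hP : HalfSpace φ j a P) {X : Submodule ℂ (Hil (U × I))}
    {N : Submodule ℂ (Hil (G × I))} (hNc : IsClosed (N : Set (Hil (G × I)))) (hN : Inv N)
    {x y : Hil (W × I)} (hx : x ∈ KP a π j hj φ hφ X N)
    (hy : y ∈ Ind φ hφ (Equiv.refl I) N)
    (hz : Rp a π (pr (Ind j hj (Equiv.refl I) X) y) = pr (Ind j hj (Equiv.refl I) X) y) :
    ⟪res j hj (Equiv.refl I) 1 x,
      res j hj (Equiv.refl I) 1 (pr (Ind j hj (Equiv.refl I) X) y)⟫_ℂ = 0 := by
  obtain ⟨hx1, hx2, hx3⟩ := mem_KP.mp hx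
  set z := pr (Ind j hj (Equiv.refl I) X) y with hzdef
  have hψ' : Function.Injective ψ := by
    intro u v huv
    apply hj
    rw [hjφ]
    simp [huv]
  have hIc : Ind j hj (Equiv.refl I) X =
      Ind φ hφ (Equiv.refl I) (Ind ψ hψ' (Equiv.refl I) X) := by
    subst hjφ
    rw [Ind_comp hj]
  -- the cut of `x` is orthogonal to `z`
  have h1 : cut P x ∈ Ind j hj (Equiv.refl I) X := by
    rw [hIc, mem_Ind] at hx1 ⊢
    intro g
    rcases cut_res (hφ := hφ) hP x g with h | h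
    · rw [h]; exact hx1 g
    · rw [h]; exact Submodule.zero_mem _
  have h2 : pr (Ind φ hφ (Equiv.refl I) N) (cut P x) = 0 := by
    apply eq_of_res (φ := φ) (hφ := hφ) (κ := Equiv.refl I)
    intro g
    rw [pr_Ind_res hNc hN, map_zero]
    rcases cut_res (hφ := hφ) hP x g with h | h
    · rw [h, ← pr_Ind_res hNc hN, hx3, map_zero]
    · rw [h, map_zero]
  have h3 : ⟪cut P x, z⟫_ℂ = 0 := by
    have hy' : pr (Ind φ hφ (Equiv.refl I) N) y = y := pr_eq_self' hy
    rw [hzdef, inner_pr_right (Submodule.le_topologicalClosure _ h1), ← hy', ← inner_pr, h2,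
      inner_zero_left]
  have hjP : ∀ u, j u ∈ P := by
    intro u
    have := hP.mul_mem 1 hP.one_mem (ψ u)
    rw [hjφ]
    simpa using this
  set w := cut P x - ext j hj (Equiv.refl I) (res j hj (Equiv.refl I) 1 x) with hw
  have hw1 : ∀ g i, g ∈ P → g ∉ Set.range j → w (g, i) = x (g, i) := by
    intro g i hg hg'
    rw [hw, lp.coeFn_sub, Pi.sub_apply, cut_apply, if_pos hg, ext_apply_not _ _ _ _ hg', sub_zero]
  have hw2 : ∀ g i, ¬ (g ∈ P ∧ g ∉ Set.range j) → w (g, i) = 0 := by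
    intro g i hg
    rw [hw, lp.coeFn_sub, Pi.sub_apply, cut_apply]
    by_cases hg1 : g ∈ Set.range j
    · obtain ⟨u, rfl⟩ := hg1
      rw [if_pos (hjP u), ext_apply, res_apply]
      simp
    · have hg2 : g ∉ P := fun h => hg ⟨h, hg1⟩
      rw [if_neg hg2, ext_apply_not _ _ _ _ hg1, sub_zero]
  have hwa : Rp a π w = -w := by
    apply Hil.ext'
    rintro ⟨g, i⟩
    rw [Rp_apply, lp.coeFn_neg, Pi.neg_apply]
    simp only
    by_cases hg : g ∈ P ∧ g ∉ Set.range j
    · have hga := hP.mul_a g hg.1 hg.2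
      rw [hw1 _ _ hg.1 hg.2, hw1 _ _ hga.1 hga.2]
      have := congrArg (fun z : Hil (W × I) => z (g, i)) hx2
      simp only at this
      rw [Rp_apply, lp.coeFn_neg, Pi.neg_apply] at this
      exact this
    · have hga : ¬ (g * a ∈ P ∧ g * a ∉ Set.range j) := by
        intro h'
        have := hP.mul_a _ h'.1 h'.2
        rw [mul_assoc, h.sq, mul_one] at this
        exact hg this
      rw [hw2 _ _ hg, hw2 _ _ hga, neg_zero]
  have h4 : ⟪w, z⟫_ℂ = 0 := by
    have e1 : ⟪w, z⟫_ℂ = - ⟪w, z⟫_ℂ := by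
      conv_lhs => rw [← hz]
      rw [← h.inner, hwa, inner_neg_left]
    have e2 : (2 : ℂ) * ⟪w, z⟫_ℂ = 0 := by
      rw [two_mul]
      nth_rw 1 [e1]
      simp
    rcases mul_eq_zero.mp e2 with h | h
    · norm_num at h
    · exact h
  have h5 : cut P x = w + ext j hj (Equiv.refl I) (res j hj (Equiv.refl I) 1 x) := by
    rw [hw]; abel
  rw [h5, inner_add_left, h4, zero_add, inner_ext] at h3
  exact h3

/-- The tree lemma: density of the range. -/
theorem tree_densep (h : Flp a π) {P : Set W} (hjφ : j = φ.comp ψ)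
    (hψ : Function.Injective ψ)
    (hja : ∀ u, j u * a = a * j u)
    (hP : HalfSpace φ j a P)
    {X : Submodule ℂ (Hil (U × I))} (hXc : IsClosed (X : Set (Hil (U × I))))
    (hXπ : ∀ x ∈ X, Pm π x ∈ X)
    {N : Submodule ℂ (Hil (G × I))} (hNc : IsClosed (N : Set (Hil (G × I)))) (hN : Inv N)
    (hgen : ∀ z ∈ X, (∀ x ∈ KP a π j hj φ hφ X N, ∀ g,
      ⟪res j hj (Equiv.refl I) g x, z⟫_ℂ = 0) → z = 0)
    {y : Hil (W × I)}
    (hy : y ∈ Ind φ hφ (Equiv.refl I) ((Ind ψ hψ (Equiv.refl I) X).map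
      ((pr N : Hil (G × I) →L[ℂ] Hil (G × I)) :
        Hil (G × I) →ₗ[ℂ] Hil (G × I))).topologicalClosure)
    (hyM : ∀ w ∈ ngp a π (Ind j hj (Equiv.refl I) X),
      ⟪pr (Ind φ hφ (Equiv.refl I) N) w, y⟫_ℂ = 0) : y = 0 := by
  set NX := ((Ind ψ hψ (Equiv.refl I) X).map
      ((pr N : Hil (G × I) →L[ℂ] Hil (G × I)) :
        Hil (G × I) →ₗ[ℂ] Hil (G × I))).topologicalClosure with hNX
  have hNXN : NX ≤ N := by
    rw [hNX]
    apply Submodule.topologicalClosure_minimal _ _ hNc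
    rintro _ ⟨w, _, rfl⟩
    have := pr_mem N w
    rwa [hNc.submodule_topologicalClosure_eq] at this
  have hyN : y ∈ Ind φ hφ (Equiv.refl I) N := Ind_mono hNXN hy
  set IX := Ind j hj (Equiv.refl I) X with hIX
  have hIXc : IsClosed (IX : Set (Hil (W × I))) := Ind_closed hXc
  have hIXcl : IX.topologicalClosure = IX := hIXc.submodule_topologicalClosure_eq
  set z := pr IX y with hz
  have hzX : z ∈ IX := by
    have := pr_mem IX y
    rwa [hIXcl] at this
  -- step 1: `z` is invariant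
  have h1 : ∀ w ∈ ngp a π IX, ⟪w, z⟫_ℂ = 0 := by
    intro w hw
    rw [hz, inner_pr_right (Submodule.le_topologicalClosure _ (ngp_le _ hw))]
    have e : pr (Ind φ hφ (Equiv.refl I) N) y = y := pr_eq_self' hyN
    rw [← e, ← inner_pr]
    exact hyM w hw
  have hRz : Rp a π z = z := by
    have hw : z - Rp a π z ∈ ngp a π IX := by
      rw [mem_ngp]
      refine ⟨Submodule.sub_mem _ hzX (Rp_Ind hja hXπ z hzX), ?_⟩
      rw [map_sub, h.Rp_sq, neg_sub]
    have e1 := h1 _ hw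
    have e2 : ⟪z - Rp a π z, Rp a π z⟫_ℂ = 0 := by
      rw [← h.inner, (mem_ngp.mp hw).2, inner_neg_left, e1, neg_zero]
    have e3 : ⟪z - Rp a π z, z - Rp a π z⟫_ℂ = 0 := by
      rw [inner_sub_right, e1, e2, sub_zero]
    have e4 := inner_self_eq_zero.mp e3
    rw [sub_eq_zero] at e4
    exact e4.symm
  -- step 2 and 3
  have hz0 : z = 0 := by
    apply eq_of_res (φ := j) (hφ := hj) (κ := Equiv.refl I)
    intro g
    rw [map_zero]
    apply hgen _ (mem_Ind.mp hzX g)
    intro x hx g'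
    -- translate
    set x' := Lt (g⁻¹ * (g * g'⁻¹)) x with hx'
    have hx'K : x' ∈ KP a π j hj φ hφ X N := KP_inv _ _ hx
    have hyt : Lt g⁻¹ y ∈ Ind φ hφ (Equiv.refl I) N := Ind_inv _ _ _ hyN
    have hzt : pr IX (Lt g⁻¹ y) = Lt g⁻¹ z := by
      rw [(Ind_inv X : Inv IX).equi_pr]
    have hzt2 : Rp a π (pr IX (Lt g⁻¹ y)) = pr IX (Lt g⁻¹ y) := by
      rw [hzt, Rp_equi, hRz]
    have e := tree_auxp (hj := hj) h hjφ hP hNc hN hx'K hyt hzt2
    rw [← hIX, hzt, hx', res_Lt, res_Lt] at e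
    simpa using e
  -- step 4
  have hyo : y ∈ IXᗮ := pr_eq_zero.mp hz0
  have hI : IX = Ind φ hφ (Equiv.refl I) (Ind ψ hψ (Equiv.refl I) X) := by
    subst hjφ
    rw [Ind_comp hj]
  rw [hI] at hyo
  apply eq_of_res (φ := φ) (hφ := hφ) (κ := Equiv.refl I)
  intro g
  rw [map_zero]
  have e1 := res_orth (Ind_inv _) hyo g
  have e2 : res φ hφ (Equiv.refl I) g y ∈ NX := mem_Ind.mp hy g
  have e3 : res φ hφ (Equiv.refl I) g y ∈ NXᗮ := by
    rw [hNX, mem_orth_closure, Submodule.mem_orthogonal]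
    rintro _ ⟨u, hu, rfl⟩
    change ⟪pr N u, _⟫_ℂ = 0
    rw [inner_pr, pr_eq_self' (hNXN e2)]
    rw [Submodule.mem_orthogonal] at e1
    exact e1 u hu
  rw [Submodule.mem_orthogonal] at e3
  exact inner_self_eq_zero.mp (e3 _ e2)

theorem map_pr_lep (hjφ : j = φ.comp ψ) {X : Submodule ℂ (Hil (U × I))}
    {N : Submodule ℂ (Hil (G × I))} (hNc : IsClosed (N : Set (Hil (G × I)))) (hN : Inv N) :
    (ngp a π (Ind j hj (Equiv.refl I) X)).map
        ((pr (Ind φ hφ (Equiv.refl I) N) : Hil (W × I) →L[ℂ] Hil (W × I)) :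
          Hil (W × I) →ₗ[ℂ] Hil (W × I)) ≤ Ind φ hφ (Equiv.refl I)
      ((Ind ψ hψ (Equiv.refl I) X).map
      ((pr N : Hil (G × I) →L[ℂ] Hil (G × I)) :
        Hil (G × I) →ₗ[ℂ] Hil (G × I))).topologicalClosure := by
  rintro _ ⟨w, hw, rfl⟩
  subst hjφ
  rw [mem_Ind]
  intro g
  change res φ hφ (Equiv.refl I) g (pr (Ind φ hφ (Equiv.refl I) N) w) ∈ _
  rw [pr_Ind_res hNc hN]
  apply Submodule.le_topologicalClosure
  have hw1 := ngp_le _ hw
  rw [← Ind_comp (hψ := hψ) (hφ := hφ) hj, mem_Ind] at hw1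
  exact ⟨_, hw1 g, rfl⟩

variable [Fintype I]

/-- The monotonicity theorem: the kernel of the connecting map has the largest dimension when the
permutation of the index set is the identity. -/
theorem KP_mono (h : Flp a π) {P : Set W} (hjφ : j = φ.comp ψ)
    (hψ : Function.Injective ψ)
    (hja : ∀ u, j u * a = a * j u) (haj : a ∉ Set.range j)
    (hP : HalfSpace φ j a P)
    {H : Submodule ℂ (Hil (U × I))} (hHc : IsClosed (H : Set (Hil (U × I))))
    {N : Submodule ℂ (Hil (G × I))} (hNc : IsClosed (N : Set (Hil (G × I)))) (hN : Inv N) :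
    vdim (KP a π j hj φ hφ H N) ≤ vdim (KP a (Equiv.refl I) j hj φ hφ H N) := by
  have h' : Flp a (Equiv.refl I) := ⟨h.sq, fun _ => rfl⟩
  -- the module generated by the kernel
  set K := KP a π j hj φ hφ H N with hK
  set X₀ : Submodule ℂ (Hil (U × I)) :=
    ⨆ g : W, K.map ((res j hj (Equiv.refl I) g : Hil (W × I) →L[ℂ] Hil (U × I)) :
      Hil (W × I) →ₗ[ℂ] Hil (U × I)) with hX₀
  have hX₀i : Inv X₀ := by
    intro u x hx
    have hle : X₀ ≤ X₀.comap ((Lt u : Hil (U × I) →L[ℂ] Hil (U × I)) :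
        Hil (U × I) →ₗ[ℂ] Hil (U × I)) := by
      conv_lhs => rw [hX₀]
      apply iSup_le
      rintro g _ ⟨y, hy, rfl⟩
      rw [Submodule.mem_comap]
      have e : Lt u (res j hj (Equiv.refl I) g y) =
          res j hj (Equiv.refl I) (g * j u⁻¹) y := by
        rw [res_mul, inv_inv]
      change Lt u (res j hj (Equiv.refl I) g y) ∈ X₀
      rw [e]
      exact Submodule.mem_iSup_of_mem (g * j u⁻¹) ⟨y, hy, rfl⟩
    exact hle hx
  have hX₀π : X₀ ≤ X₀.comap ((Pm π : Hil (U × I) →L[ℂ] Hil (U × I)) :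
        Hil (U × I) →ₗ[ℂ] Hil (U × I)) := by
    conv_lhs => rw [hX₀]
    apply iSup_le
    rintro g _ ⟨y, hy, rfl⟩
    rw [Submodule.mem_comap]
    have hy' : Rp a π y = -y := (mem_KP.mp hy).2.1
    have e : Pm π (res j hj (Equiv.refl I) g y) =
        -(res j hj (Equiv.refl I) (g * a) y) := by
      have e1 := res_Rp (hj := hj) (π := π) hja (g * a) y
      rw [hy', mul_assoc, h.sq, mul_one, map_neg] at e1
      exact e1.symm
    change Pm π (res j hj (Equiv.refl I) g y) ∈ X₀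
    rw [e]
    apply Submodule.neg_mem
    exact Submodule.mem_iSup_of_mem (g * a) ⟨y, hy, rfl⟩
  set X := X₀.topologicalClosure with hX
  have hXc : IsClosed (X : Set (Hil (U × I))) := Submodule.isClosed_topologicalClosure _
  have hXi : Inv X := hX₀i.closure
  have hXπ : ∀ x ∈ X, Pm π x ∈ X := by
    have hle : X ≤ X.comap ((Pm π : Hil (U × I) →L[ℂ] Hil (U × I)) :
        Hil (U × I) →ₗ[ℂ] Hil (U × I)) := by
      conv_lhs => rw [hX]
      apply Submodule.topologicalClosure_minimal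
      · intro x hx
        exact Submodule.le_topologicalClosure _ (hX₀π hx)
      · exact hXc.preimage (Pm π : Hil (U × I) →L[ℂ] Hil (U × I)).continuous
    exact fun x hx => hle hx
  have hXH : X ≤ H := by
    apply Submodule.topologicalClosure_minimal _ _ hHc
    apply iSup_le
    rintro g _ ⟨y, hy, rfl⟩
    exact mem_Ind.mp (mem_KP.mp hy).1 g
  have hKX : KP a π j hj φ hφ X N = K := by
    ext x
    rw [hK, mem_KP, mem_KP]
    constructor
    · rintro ⟨h1, h2⟩
      exact ⟨Ind_mono hXH h1, h2⟩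
    · intro h
      refine ⟨?_, h.2⟩
      rw [mem_Ind]
      intro g
      apply Submodule.le_topologicalClosure
      exact Submodule.mem_iSup_of_mem g ⟨x, mem_KP.mpr h, rfl⟩
  have hgen : ∀ z ∈ X, (∀ x ∈ KP a π j hj φ hφ X N, ∀ g,
      ⟪res j hj (Equiv.refl I) g x, z⟫_ℂ = 0) → z = 0 := by
    intro z hz h
    have h1 : X₀ ≤ (Submodule.span ℂ {z})ᗮ := by
      apply iSup_le
      rintro g _ ⟨y, hy, rfl⟩
      rw [Submodule.mem_orthogonal_singleton_iff_inner_left]
      rw [hKX] at h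
      exact h y hy g
    have h2 : X ≤ (Submodule.span ℂ {z})ᗮ :=
      Submodule.topologicalClosure_minimal _ h1 (Submodule.isClosed_orthogonal _)
    have h3 := h2 hz
    rw [Submodule.mem_orthogonal_singleton_iff_inner_left] at h3
    exact inner_self_eq_zero.mp h3
  set NX₀ := ((Ind ψ hψ (Equiv.refl I) X).map
      ((pr N : Hil (G × I) →L[ℂ] Hil (G × I)) :
        Hil (G × I) →ₗ[ℂ] Hil (G × I))) with hNX₀
  set NX := NX₀.topologicalClosure with hNX
  have hNX₀i : Inv NX₀ := (Ind_inv X).map hN.equi_pr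
  have hNXc : IsClosed (NX : Set (Hil (G × I))) := Submodule.isClosed_topologicalClosure _
  have hNXi : Inv NX := hNX₀i.closure
  have hinclD := map_pr_lep (hψ := hψ) (hj := hj) (hφ := hφ) (a := a) (π := π) hjφ (X := X)
    hNc hN
  have hincl' := map_pr_lep (hψ := hψ) (hj := hj) (hφ := hφ) (a := a) (π := Equiv.refl I) hjφ
    (X := X) hNc hN
  rw [← hNX₀, ← hNX] at hinclD hincl'
  set M := (ngp a π (Ind j hj (Equiv.refl I) X)).map
        ((pr (Ind φ hφ (Equiv.refl I) N) : Hil (W × I) →L[ℂ] Hil (W × I)) :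
          Hil (W × I) →ₗ[ℂ] Hil (W × I)) with hM
  set M' := (ngp a (Equiv.refl I) (Ind j hj (Equiv.refl I) X)).map
        ((pr (Ind φ hφ (Equiv.refl I) N) : Hil (W × I) →L[ℂ] Hil (W × I)) :
          Hil (W × I) →ₗ[ℂ] Hil (W × I)) with hM'
  -- dimension count for `π`
  have hA1 := rank_nullity (ngp_closed (a := a) (π := π)
      (Ind_closed (φ := j) (hφ := hj) (κ := Equiv.refl I) hXc))
    (ngp_inv (Ind_inv _)) (pr (Ind φ hφ (Equiv.refl I) N)) (Ind_inv _).equi_pr
  rw [← hM] at hA1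
  change _ = vdim (KP a π j hj φ hφ X N) + _ at hA1
  rw [vdim_ngp_Ind h hja haj hXc hXi hXπ] at hA1
  have hA2 : vdim (Ind φ hφ (Equiv.refl I) NX) = vdim M := by
    rw [vdim_decomp (Ind_closed hNXc) hinclD]
    have hbot : Ind φ hφ (Equiv.refl I) NX ⊓ Mᗮ = ⊥ := by
      rw [Submodule.eq_bot_iff]
      intro y hy
      apply tree_densep (hj := hj) h hjφ hψ hja hP hXc hXπ hNc hN hgen hy.1
      intro w hw
      have := hy.2
      rw [SetLike.mem_coe, Submodule.mem_orthogonal] at this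
      exact this _ ⟨w, hw, rfl⟩
    rw [hbot, vdim_bot, add_zero]
  rw [vdim_Ind hNXc hNXi] at hA2
  -- dimension count for the identity
  have hB1 := rank_nullity
    (ngp_closed (a := a) (π := Equiv.refl I)
      (Ind_closed (φ := j) (hφ := hj) (κ := Equiv.refl I) hXc))
    (ngp_inv (Ind_inv _)) (pr (Ind φ hφ (Equiv.refl I) N)) (Ind_inv _).equi_pr
  rw [← hM'] at hB1
  change _ = vdim (KP a (Equiv.refl I) j hj φ hφ X N) + _ at hB1
  rw [vdim_ngp_Ind h' hja haj hXc hXi (fun x hx => by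
    have : Pm (Equiv.refl I) x = x := by
      apply Hil.ext'
      intro p
      simp
    rw [this]
    exact hx)] at hB1
  have hB2 : vdim M' ≤ vdim NX := by
    rw [← vdim_Ind (φ := φ) (hφ := hφ) (κ := Equiv.refl I) hNXc hNXi]
    exact vdim_mono hincl'
  have hB3 : vdim (KP a (Equiv.refl I) j hj φ hφ X N) ≤
      vdim (KP a (Equiv.refl I) j hj φ hφ H N) := by
    apply vdim_mono
    intro x hx
    rw [mem_KP] at hx ⊢
    exact ⟨Ind_mono hXH hx.1, hx.2⟩
  rw [hKX] at hA1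
  linarith

end tree

end

end Pool.Agent.Helper30L2
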