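import Pool.Agent.Helper30_Cube.Flip

/-!
# Removing a label: the rank formula
-/

namespace Pool.Agent.Helper30L2

open scoped ENNReal InnerProductSpace
open Filter

set_option linter.unusedSectionVars false

noncomputable section

variable {A : Type*} [DecidableEq A] {V : Type*} {G : Type*} [Group G]
  {K : V → Finset A → Prop} {op : A → V → V} {s : A → G} {ε : Sgn A}

/-- The cells without the label `a`. -/
def K0 (a : A) (K : V → Finset A → Prop) (v : V) (T : Finset A) : Prop := K v T ∧ a ∉ T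

/-- The cells of the wall with label `a`. -/
def KN (a : A) (K : V → Finset A → Prop) (v : V) (T : Finset A) : Prop := K v (insert a T) ∧ a ∉ T

theorem K0_cub (a : A) (h : IsCub K op) : IsCub (K0 a K) op where
  down := fun h1 h2 => ⟨h.down h1.1 h2, fun h3 => h1.2 (h2 h3)⟩
  flip := fun h1 h2 => ⟨h.flip h1.1 h2, h1.2⟩
  inv := fun h1 h2 => h.inv h1.1 h2
  comm := fun h1 h2 h3 => h.comm h1.1 h2 h3

theorem KN_cub (a : A) (h : IsCub K op) : IsCub (KN a K) op where
  down := fun h1 h2 => ⟨h.down h1.1 (Finset.insert_subset_insert a h2), fun h3 => h1.2 (h2 h3)⟩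
  flip := fun h1 h2 => ⟨h.flip h1.1 (Finset.mem_insert_of_mem h2), h1.2⟩
  inv := fun h1 h2 => h.inv h1.1 (Finset.mem_insert_of_mem h2)
  comm := fun h1 h2 h3 => h.comm h1.1 (Finset.mem_insert_of_mem h2) (Finset.mem_insert_of_mem h3)

theorem CC_mono {K K' : V → Finset A → Prop} (hK : IsCub K op) (hK' : IsCub K' op)
    (h : ∀ v T, K v T → K' v T) (i : ℤ) : CC K op s i ≤ CC K' op s i := by
  intro x hx
  rw [mem_CC] at hx ⊢
  refine ⟨fun g v T hT => hx.1 g v T (fun h' => hT ⟨h _ _ h'.1, h'.2⟩), ?_⟩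
  intro g v T hT t ht
  by_cases h1 : K v T
  · exact hx.2 g v T h1 t ht
  · have h2 : ¬ K (op t v) T := by
      intro h3
      apply h1
      have := hK.flip h3 ht
      rwa [hK'.inv hT ht] at this
    rw [hx.1 _ _ _ (fun h3 => h2 h3.1), hx.1 _ _ _ (fun h3 => h1 h3.1), neg_zero]

theorem KN_K0 (h : IsCub K op) (a : A) (v : V) (T : Finset A) (h1 : KN a K v T) : K0 a K v T :=
  ⟨h.down h1.1 (Finset.subset_insert a T), h1.2⟩

open Classical in
/-- The other end of the edge with label `a`, if there is one. -/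
def tau (K : V → Finset A → Prop) (op : A → V → V) (a : A) (v : V) : V :=
  if K v {a} then op a v else v

theorem tau_eq {a : A} {v : V} (h : K v {a}) : tau K op a v = op a v := if_pos h

theorem tau_ne {a : A} {v : V} (h : ¬ K v {a}) : tau K op a v = v := if_neg h

theorem tau_tau (hX : IsCub K op) (a : A) (v : V) : tau K op a (tau K op a v) = v := by
  by_cases h : K v {a}
  · have h1 := hX.flip h (Finset.mem_singleton_self a)
    rw [tau_eq h, tau_eq h1, hX.inv h (Finset.mem_singleton_self a)]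
  · rw [tau_ne h, tau_ne h]

/-- The flip of the index set. -/
def ppi (hX : IsCub K op) (a : A) : (V × Finset A) ≃ (V × Finset A) where
  toFun := fun p => (tau K op a p.1, p.2)
  invFun := fun p => (tau K op a p.1, p.2)
  left_inv := fun p => by simp [tau_tau hX]
  right_inv := fun p => by simp [tau_tau hX]

theorem ppi_apply (hX : IsCub K op) (a : A) (v : V) (T : Finset A) :
    ppi hX a (v, T) = (tau K op a v, T) := rfl

theorem ppi_flp (hX : IsCub K op) {a : A} (ha2 : s a * s a = 1) : Flp (s a) (ppi hX a) where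
  sq := ha2
  pi := fun p => (ppi hX a).left_inv p

theorem KN_tau (hX : IsCub K op) {a : A} {v : V} {T : Finset A} :
    K (tau K op a v) (insert a T) ↔ K v (insert a T) := by
  by_cases h : K v {a}
  · rw [tau_eq h]
    constructor
    · intro h1
      have := hX.flip h1 (Finset.mem_insert_self a T)
      rwa [hX.inv h (Finset.mem_singleton_self a)] at this
    · intro h1
      exact hX.flip h1 (Finset.mem_insert_self a T)
  · rw [tau_ne h]

/-- Functions supported on sets containing `a`. -/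
def cPa (a : A) : Submodule ℂ (Hil (G × (V × Finset A))) where
  carrier := {x | ∀ g v T, a ∉ T → x (g, (v, T)) = 0}
  zero_mem' := by intro g v T _; simp
  add_mem' := by
    intro x y hx hy g v T h
    rw [lp.coeFn_add, Pi.add_apply, hx g v T h, hy g v T h, add_zero]
  smul_mem' := by
    intro c x hx g v T h
    rw [lp.coeFn_smul, Pi.smul_apply, hx g v T h, smul_zero]

theorem mem_cPa {a : A} {x : Hil (G × (V × Finset A))} :
    x ∈ cPa a ↔ ∀ g v T, a ∉ T → x (g, (v, T)) = 0 := Iff.rfl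

theorem cPa_closed (a : A) :
    IsClosed ((cPa a : Submodule ℂ (Hil (G × (V × Finset A)))) :
      Set (Hil (G × (V × Finset A)))) := by
  have : ((cPa a : Submodule ℂ (Hil (G × (V × Finset A)))) : Set (Hil (G × (V × Finset A)))) =
      ⋂ g, ⋂ v, ⋂ T, ⋂ (_ : a ∉ T), {x | x (g, (v, T)) = 0} := by
    ext x
    simp only [SetLike.mem_coe, mem_cPa, Set.mem_iInter, Set.mem_ofPred_eq]
  rw [this]
  refine isClosed_iInter fun g => isClosed_iInter fun v => isClosed_iInter fun T =>
    isClosed_iInter fun _ => ?_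
  exact isClosed_eq (continuous_ev _) continuous_const

theorem cPa_inv (a : A) : Inv (cPa a : Submodule ℂ (Hil (G × (V × Finset A)))) := by
  intro g x hx
  rw [mem_cPa] at hx ⊢
  intro h v T hT
  rw [Lt_apply]
  exact hx _ _ _ hT

theorem cio_inj {a : A} {x : Hil (G × (V × Finset A))} (hx : x ∈ cPa a)
    (h : cio ε a x = 0) : x = 0 := by
  apply Hil.ext'
  rintro ⟨g, v, T⟩
  by_cases hT : a ∈ T
  · have := cjo_cio ε a x g v T
    rw [h, map_zero, if_pos hT] at this
    exact this.symm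
  · exact hx g v T hT

theorem cio_mem (hX : IsCub K op) {a : A} {i : ℤ} {x : Hil (G × (V × Finset A))}
    (hx : x ∈ CC K op s (i + 1)) :
    cio ε a x ∈ ngp (s a) (ppi hX a) (CC (KN a K) op s i) := by
  rw [mem_ngp]
  rw [mem_CC] at hx ⊢
  refine ⟨⟨?_, ?_⟩, ?_⟩
  · intro g v T hT
    rw [cio_apply]
    split_ifs with ha
    · rfl
    · rw [hx.1, mul_zero]
      rintro ⟨h1, h2⟩
      apply hT
      refine ⟨⟨h1, ha⟩, ?_⟩
      rw [Finset.card_insert_of_notMem ha] at h2
      push_cast at h2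
      linarith
  · intro g v T hT t ht
    rw [cio_apply, cio_apply]
    split_ifs with ha
    · simp
    · rw [hx.2 g v _ hT.1 t (Finset.mem_insert_of_mem ht)]
      ring
  · apply Hil.ext'
    rintro ⟨g, v, T⟩
    rw [Rp_apply, lp.coeFn_neg, Pi.neg_apply]
    simp only [ppi_apply]
    rw [cio_apply, cio_apply]
    split_ifs with ha
    · simp
    · by_cases h : K v (insert a T)
      · have h1 : K v {a} := hX.down h (by simp)
        rw [tau_eq h1, hx.2 g v _ h a (Finset.mem_insert_self _ _)]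
        ring
      · have h1 : ¬ K (tau K op a v) (insert a T) := fun h2 => h ((KN_tau hX).mp h2)
        rw [hx.1 _ _ _ (fun h2 => h h2.1), hx.1 _ _ _ (fun h2 => h1 h2.1)]
        ring

theorem cjo_mem (hX : IsCub K op) {a : A} {i : ℤ} {y : Hil (G × (V × Finset A))}
    (hy : y ∈ ngp (s a) (ppi hX a) (CC (KN a K) op s i)) :
    cjo ε a y ∈ CC K op s (i + 1) ⊓ cPa a := by
  rw [mem_ngp, mem_CC] at hy
  obtain ⟨⟨hy1, hy2⟩, hy3⟩ := hy
  refine ⟨⟨?_, ?_⟩, ?_⟩
  · intro g v T hT
    rw [cjo_apply]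
    split_ifs with ha
    · rw [hy1, mul_zero]
      rintro ⟨⟨h1, h2⟩, h3⟩
      apply hT
      rw [Finset.insert_erase ha] at h1
      refine ⟨h1, ?_⟩
      rw [← Finset.insert_erase ha, Finset.card_insert_of_notMem (Finset.notMem_erase a T)]
      push_cast
      rw [h3]
    · rfl
  · intro g v T hK t ht
    rw [cjo_apply, cjo_apply]
    split_ifs with ha
    · by_cases hta : t = a
      · subst hta
        have := congrArg (fun z : Hil (G × (V × Finset A)) => z (g, (v, T.erase t))) hy3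
        simp only at this
        rw [Rp_apply, lp.coeFn_neg, Pi.neg_apply] at this
        simp only [ppi_apply] at this
        rw [tau_eq (hX.down hK (by simpa using ha))] at this
        rw [this]
        ring
      · have h1 : KN a K v (T.erase a) := by
          refine ⟨?_, Finset.notMem_erase a T⟩
          rw [Finset.insert_erase ha]
          exact hK
        rw [hy2 g v _ h1 t (Finset.mem_erase.mpr ⟨hta, ht⟩)]
        ring
    · simp
  · intro g v T hT
    rw [cjo_apply, if_neg hT]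

theorem map_cio (hX : IsCub K op) {a : A} {i : ℤ} :
    (CC K op s (i + 1) ⊓ cPa a).map
      ((cio ε a : Hil (G × (V × Finset A)) →L[ℂ] Hil (G × (V × Finset A))) :
        Hil (G × (V × Finset A)) →ₗ[ℂ] Hil (G × (V × Finset A))) =
      ngp (s a) (ppi hX a) (CC (KN a K) op s i) := by
  apply le_antisymm
  · rintro _ ⟨x, hx, rfl⟩
    exact cio_mem hX hx.1
  · intro y hy
    refine ⟨cjo ε a y, cjo_mem hX hy, ?_⟩
    apply Hil.ext'
    rintro ⟨g, v, T⟩
    change cio ε a (cjo ε a y) (g, (v, T)) = _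
    rw [cio_cjo]
    split_ifs with ha
    · symm
      apply hy.1.1
      intro h
      exact h.1.2 ha
    · rfl

theorem CC0_orth {a : A} {i j : ℤ} :
    CC (K0 a K) op s i ≤ (CC K op s j ⊓ cPa a)ᗮ := by
  intro x hx
  rw [Submodule.mem_orthogonal]
  intro y hy
  rw [Hil.inner_eq]
  have : ∀ p : G × (V × Finset A), (starRingEnd ℂ) (y p) * x p = 0 := by
    rintro ⟨g, v, T⟩
    by_cases hT : a ∈ T
    · rw [hx.1 g v T (fun h => h.1.2 hT), mul_zero]
    · rw [hy.2 g v T hT]
      simp
  simp [this]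

theorem CC_split (ε : Sgn A) (hX : IsCub K op) {a : A} {i : ℤ} :
    CC K op s (i + 1) = CC (K0 a K) op s (i + 1) ⊔ (CC K op s (i + 1) ⊓ cPa a) := by
  apply le_antisymm
  · intro x hx
    have h1 := cjo_mem (ε := ε) hX (cio_mem (ε := ε) (a := a) hX hx)
    have h2 : x = (x - cjo ε a (cio ε a x)) + cjo ε a (cio ε a x) := by abel
    rw [h2]
    apply Submodule.add_mem_sup _ h1
    have h3 := Submodule.sub_mem _ hx h1.1
    rw [mem_CC] at h3 ⊢
    refine ⟨?_, fun g v T hT t ht => h3.2 g v T hT.1 t ht⟩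
    intro g v T hT
    by_cases ha : a ∈ T
    · rw [lp.coeFn_sub, Pi.sub_apply, cjo_cio, if_pos ha, sub_self]
    · apply h3.1
      intro h4
      exact hT ⟨⟨h4.1, ha⟩, h4.2⟩
  · exact sup_le (CC_mono (K0_cub a hX) hX (fun _ _ h => h.1) _) inf_le_left

theorem Rp_cio (hX : IsCub K op) (a b : A) (c : G) (x : Hil (G × (V × Finset A))) :
    Rp c (ppi hX a) (cio ε b x) = cio ε b (Rp c (ppi hX a) x) := by
  apply Hil.ext'
  rintro ⟨g, v, T⟩
  rw [Rp_apply]
  simp only [ppi_apply]
  rw [cio_apply, cio_apply, Rp_apply]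
  simp only [ppi_apply]

theorem Rp_cD (hX : IsCub K op) (a : A) (c : G) (S : Finset A) (x : Hil (G × (V × Finset A))) :
    Rp c (ppi hX a) (cD ε S x) = cD ε S (Rp c (ppi hX a) x) := by
  rw [cD_apply', cD_apply', map_sum]
  exact Finset.sum_congr rfl fun b _ => Rp_cio hX a b c x

theorem Rp_CC (hX : IsCub K op) {a : A} {c : G}
    (hc : ∀ v t, a ≠ t → K v {a, t} → s t * c = c * s t) {i : ℤ} :
    ∀ x ∈ CC (KN a K) op s i, Rp c (ppi hX a) x ∈ CC (KN a K) op s i := by
  intro x hx
  rw [mem_CC] at hx ⊢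
  constructor
  · intro g v T hT
    rw [Rp_apply]
    simp only [ppi_apply]
    apply hx.1
    rintro ⟨h1, h2⟩
    exact hT ⟨⟨(KN_tau hX).mp h1.1, h1.2⟩, h2⟩
  · intro g v T hK t ht
    rw [Rp_apply, Rp_apply]
    simp only [ppi_apply]
    have hta : a ≠ t := by
      rintro rfl
      exact hK.2 ht
    have h1 : K v {a} := hX.down hK.1 (by simp)
    have h2 : K (op t v) (insert a T) := hX.flip hK.1 (Finset.mem_insert_of_mem ht)
    have h3 : K (op t v) {a} := hX.down h2 (by simp)
    rw [tau_eq h1, tau_eq h3, hX.comm hK.1 (Finset.mem_insert_self a T)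
      (Finset.mem_insert_of_mem ht), mul_assoc, hc v t hta (hX.down hK.1 (by
        intro b hb
        rw [Finset.mem_insert, Finset.mem_singleton] at hb
        rcases hb with rfl | rfl
        · exact Finset.mem_insert_self _ _
        · exact Finset.mem_insert_of_mem ht)), ← mul_assoc]
    exact hx.2 _ _ _ ⟨hX.flip hK.1 (Finset.mem_insert_self a T), hK.2⟩ t ht

variable [Fintype A]

theorem Harm_ngp (hX : IsCub K op) {a : A} (ha2 : s a * s a = 1)
    (hc : ∀ v t, a ≠ t → K v {a, t} → s t * s a = s a * s t) {i : ℤ} :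
    Harm (ngp (s a) (ppi hX a) (CC (KN a K) op s i))
      (ngp (s a) (ppi hX a) (CC (KN a K) op s (i + 1))) (cD ε Finset.univ) =
      ngp (s a) (ppi hX a) (CH ε (KN a K) op s i) := by
  have hf := ppi_flp hX ha2
  ext x
  rw [mem_Harm, mem_ngp, mem_ngp, mem_CH]
  constructor
  · rintro ⟨⟨h1, h2⟩, h3, h4⟩
    refine ⟨⟨h1, h3, ?_⟩, h2⟩
    intro y hy
    have h5 : ⟪cD ε Finset.univ (y - Rp (s a) (ppi hX a) y), x⟫_ℂ = 0 := by
      apply h4
      rw [mem_ngp]
      refine ⟨Submodule.sub_mem _ hy (Rp_CC hX hc _ hy), ?_⟩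
      rw [map_sub, hf.Rp_sq, neg_sub]
    have h6 : ⟪cD ε Finset.univ (Rp (s a) (ppi hX a) y), x⟫_ℂ =
        - ⟪cD ε Finset.univ y, x⟫_ℂ := by
      rw [← Rp_cD, hf.inner, h2, inner_neg_right]
    rw [map_sub, inner_sub_left, h6, sub_neg_eq_add, ← two_mul] at h5
    rcases mul_eq_zero.mp h5 with h7 | h7
    · norm_num at h7
    · exact h7
  · rintro ⟨⟨h1, h3, h4⟩, h2⟩
    refine ⟨⟨h1, h2⟩, h3, ?_⟩
    intro y hy
    exact h4 y (ngp_le _ hy)

theorem Rp_CH (hX : IsCub K op) {a : A} {c : G} (hf : Flp c (ppi hX a))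
    (hc : ∀ v t, a ≠ t → K v {a, t} → s t * c = c * s t) {i : ℤ} :
    ∀ x ∈ CH ε (KN a K) op s i, Rp c (ppi hX a) x ∈ CH ε (KN a K) op s i := by
  intro x hx
  rw [mem_CH] at hx ⊢
  refine ⟨Rp_CC hX hc _ hx.1, ?_, ?_⟩
  · rw [← Rp_cD, hx.2.1, map_zero]
  · intro y hy
    have := hx.2.2 _ (Rp_CC hX hc _ hy)
    rw [← Rp_cD, hf.inner] at this
    exact this

theorem ngp_hyp (hX : IsCub K op) {a : A} {i : ℤ} :
    ∀ y ∈ ngp (s a) (ppi hX a) (CC (KN a K) op s (i + 1)),
    cD ε Finset.univ y ∈ ngp (s a) (ppi hX a) (CC (KN a K) op s i) ∧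
      cD ε Finset.univ (cD ε Finset.univ y) = 0 := by
  intro y hy
  rw [mem_ngp] at hy ⊢
  refine ⟨⟨cD_mem ε (KN_cub a hX) hy.1, ?_⟩, cD_cD ε Finset.univ y⟩
  rw [Rp_cD, hy.2, map_neg]

theorem cio_zero {a : A} {i : ℤ} {x : Hil (G × (V × Finset A))}
    (hx : x ∈ CC (K0 a K) op s i) : cio ε a x = 0 := by
  apply Hil.ext'
  rintro ⟨g, v, T⟩
  rw [cio_apply]
  split_ifs with h
  · rfl
  · rw [hx.1 _ _ _ (fun h2 => h2.1.2 (Finset.mem_insert_self a T)), mul_zero]
    rfl

theorem cD_univ (a : A) (x : Hil (G × (V × Finset A))) :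
    cD ε Finset.univ x = cio ε a x + cD ε (Finset.univ.erase a) x := by
  rw [← cD_insert ε (Finset.notMem_erase a Finset.univ),
    Finset.insert_erase (Finset.mem_univ a)]

theorem cD_cPa {a : A} {x : Hil (G × (V × Finset A))} (hx : x ∈ cPa a) :
    cD ε (Finset.univ.erase a) x ∈ cPa a := by
  intro g v T hT
  rw [cD_apply]
  apply Finset.sum_eq_zero
  intro b hb
  rw [Finset.mem_sdiff, Finset.mem_erase] at hb
  rw [hx, mul_zero]
  rw [Finset.mem_insert]
  rintro (h | h)
  · exact hb.1.1 h.symm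
  · exact hT h

variable [Fintype V]

/-- The rank of the connecting map. -/
def rhoc (ε : Sgn A) {K : V → Finset A → Prop} {op : A → V → V} (s : A → G) (hX : IsCub K op)
    (a : A) (i : ℤ) : ℝ :=
  vdim ((ngp (s a) (ppi hX a) (CH ε (KN a K) op s i)).map
    ((pr (CH ε (K0 a K) op s i) :
      Hil (G × (V × Finset A)) →L[ℂ] Hil (G × (V × Finset A))) :
      Hil (G × (V × Finset A)) →ₗ[ℂ] Hil (G × (V × Finset A))))

theorem CB_closure_le (hX : IsCub K op) (i : ℤ) :
    (CB ε Finset.univ (CC K op s (i + 1))).topologicalClosure ≤ CC K op s i := by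
  apply Submodule.topologicalClosure_minimal _ _ (CC_closed i)
  rintro _ ⟨y, hy, rfl⟩
  exact cD_mem ε hX hy

theorem rank_label (hX : IsCub K op) {a : A} (ha2 : s a * s a = 1)
    (hc : ∀ v t, a ≠ t → K v {a, t} → s t * s a = s a * s t) (i : ℤ) :
    vdim (CB ε Finset.univ (CC K op s (i + 1))) =
      vdim (CB ε Finset.univ (CC (K0 a K) op s (i + 1))) +
      vdim (CB ε Finset.univ (ngp (s a) (ppi hX a) (CC (KN a K) op s i))) +
      rhoc ε s hX a i := by
  have hf := ppi_flp hX ha2
  have hX0 := K0_cub a hX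
  have hXN := KN_cub a hX
  set C'' := CC K op s (i + 1) ⊓ cPa a with hC''
  have hC''c : IsClosed (C'' : Set (Hil (G × (V × Finset A)))) :=
    (CC_closed _).inter (cPa_closed a)
  have hC''i : Inv C'' := (CC_inv _).inf (cPa_inv a)
  set B' := CB ε Finset.univ (CC (K0 a K) op s (i + 1)) with hB'
  have hB'i : Inv B' := (CC_inv _).map (cD_equi ε Finset.univ)
  have hB'c := CB_closure_le (ε := ε) (s := s) hX0 i
  -- step 1
  have h1 : vdim (CB ε Finset.univ (CC K op s (i + 1))) = vdim B' +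
      vdim (C''.map (((1 - pr B') * cD ε Finset.univ :
        Hil (G × (V × Finset A)) →L[ℂ] Hil (G × (V × Finset A))) :
        Hil (G × (V × Finset A)) →ₗ[ℂ] Hil (G × (V × Finset A)))) := by
    rw [CC_split ε hX (a := a), CB, Submodule.map_sup, ← hC'']
    change vdim (B' ⊔ _) = _
    rw [vdim_sup_general]
    congr 1
    rw [← Submodule.map_comp]
    rfl
  -- step 2
  have hT1 : Equi ((1 - pr B') * cD ε Finset.univ :
        Hil (G × (V × Finset A)) →L[ℂ] Hil (G × (V × Finset A))) :=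
    (Equi.one.sub hB'i.equi_pr).comp (cD_equi ε _)
  have hT3 : Equi ((1 - pr B') * cio ε a :
        Hil (G × (V × Finset A)) →L[ℂ] Hil (G × (V × Finset A))) :=
    (Equi.one.sub hB'i.equi_pr).comp (cio_equi ε _)
  have h2 := rank_nullity hC''c hC''i _ hT1
  have h3 := rank_nullity hC''c hC''i _ (cD_equi ε (Finset.univ.erase a))
  set Z'' := C'' ⊓ LinearMap.ker ((cD ε (Finset.univ.erase a) :
      Hil (G × (V × Finset A)) →L[ℂ] Hil (G × (V × Finset A))) :
      Hil (G × (V × Finset A)) →ₗ[ℂ] Hil (G × (V × Finset A))) with hZ''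
  have hZ''c : IsClosed (Z'' : Set (Hil (G × (V × Finset A)))) :=
    hC''c.inter (ContinuousLinearMap.isClosed_ker _)
  have hZ''i : Inv Z'' := hC''i.inf (Inv.ker (cD_equi ε _))
  have h4 := rank_nullity hZ''c hZ''i _ hT3
  have horth : ∀ x ∈ C'', pr B' (cD ε (Finset.univ.erase a) x) = 0 := by
    intro x hx
    rw [pr_eq_zero, Submodule.mem_orthogonal]
    intro y hy
    have hy' : y ∈ CC (K0 a K) op s i := hB'c (Submodule.le_topologicalClosure _ hy)
    have hD : cD ε (Finset.univ.erase a) x ∈ CC K op s i ⊓ cPa a :=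
      ⟨cD_mem ε hX hx.1, cD_cPa hx.2⟩
    have := CC0_orth (K := K) (op := op) (s := s) (a := a) (i := i) (j := i) hy'
    rw [Submodule.mem_orthogonal] at this
    rw [← inner_conj_symm, this _ hD, map_zero]
  have hio : ∀ x ∈ CC K op s (i + 1), cio ε a x ∈ CC (KN a K) op s i :=
    fun x hx => ngp_le _ (cio_mem hX hx)
  have hN0 : CC (KN a K) op s i ≤ CC (K0 a K) op s i :=
    CC_mono hXN hX0 (KN_K0 hX a) i
  have h5 : C'' ⊓ LinearMap.ker (((1 - pr B') * cD ε Finset.univ :
        Hil (G × (V × Finset A)) →L[ℂ] Hil (G × (V × Finset A))) :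
        Hil (G × (V × Finset A)) →ₗ[ℂ] Hil (G × (V × Finset A))) =
      Z'' ⊓ LinearMap.ker (((1 - pr B') * cio ε a :
        Hil (G × (V × Finset A)) →L[ℂ] Hil (G × (V × Finset A))) :
        Hil (G × (V × Finset A)) →ₗ[ℂ] Hil (G × (V × Finset A))) := by
    ext x
    rw [Submodule.mem_inf, Submodule.mem_inf, hZ'', Submodule.mem_inf]
    simp only [LinearMap.mem_ker]
    have e1 : ∀ x ∈ C'', ((1 - pr B') * cD ε Finset.univ :
        Hil (G × (V × Finset A)) →L[ℂ] Hil (G × (V × Finset A))) x =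
        (cio ε a x - pr B' (cio ε a x)) + cD ε (Finset.univ.erase a) x := by
      intro x hx
      simp only [mul_apply_eq_comp, sub_apply, one_apply_eq_self]
      rw [cD_univ a, map_add, horth x hx]
      abel
    have e2 : ∀ x : Hil (G × (V × Finset A)), ((1 - pr B') * cio ε a :
        Hil (G × (V × Finset A)) →L[ℂ] Hil (G × (V × Finset A))) x =
        (cio ε a x - pr B' (cio ε a x)) := by
      intro x
      simp only [mul_apply_eq_comp, sub_apply, one_apply_eq_self]
    constructor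
    · rintro ⟨hx, h⟩
      change ((1 - pr B') * cD ε Finset.univ :
        Hil (G × (V × Finset A)) →L[ℂ] Hil (G × (V × Finset A))) x = 0 at h
      rw [e1 x hx] at h
      have hp : cD ε (Finset.univ.erase a) x ∈ cPa a := cD_cPa hx.2
      have hq : cio ε a x - pr B' (cio ε a x) ∈ CC (K0 a K) op s i := by
        apply Submodule.sub_mem
        · exact hN0 (hio x hx.1)
        · exact hB'c (pr_mem _ _)
      have hz : cD ε (Finset.univ.erase a) x = 0 := by
        apply Hil.ext'
        rintro ⟨g, v, T⟩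
        by_cases hT : a ∈ T
        · have := congrArg (fun z : Hil (G × (V × Finset A)) => z (g, (v, T))) h
          simp only at this
          rw [lp.coeFn_add, Pi.add_apply, hq.1 g v T (fun h => h.1.2 hT), zero_add] at this
          exact this
        · exact hp g v T hT
      refine ⟨⟨hx, hz⟩, ?_⟩
      change ((1 - pr B') * cio ε a :
        Hil (G × (V × Finset A)) →L[ℂ] Hil (G × (V × Finset A))) x = 0
      rw [e2]
      rw [hz, add_zero] at h
      exact h
    · rintro ⟨⟨hx, hz⟩, h⟩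
      refine ⟨hx, ?_⟩
      change ((1 - pr B') * cD ε Finset.univ :
        Hil (G × (V × Finset A)) →L[ℂ] Hil (G × (V × Finset A))) x = 0
      change ((1 - pr B') * cio ε a :
        Hil (G × (V × Finset A)) →L[ℂ] Hil (G × (V × Finset A))) x = 0 at h
      rw [e2] at h
      have hz' : cD ε (Finset.univ.erase a) x = 0 := hz
      rw [e1 x hx, h, hz', add_zero]
  have hDN : ∀ y ∈ CC (KN a K) op s i, cD ε (Finset.univ.erase a) y = cD ε Finset.univ y := by
    intro y hy
    rw [cD_univ a, cio_zero (hN0 hy), zero_add]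
  -- `cio a` maps the cycles onto the cycles
  have h6 : Z''.map ((cio ε a : Hil (G × (V × Finset A)) →L[ℂ] Hil (G × (V × Finset A))) :
        Hil (G × (V × Finset A)) →ₗ[ℂ] Hil (G × (V × Finset A))) =
      ngp (s a) (ppi hX a) (CC (KN a K) op s i) ⊓ LinearMap.ker
        ((cD ε Finset.univ : Hil (G × (V × Finset A)) →L[ℂ] Hil (G × (V × Finset A))) :
        Hil (G × (V × Finset A)) →ₗ[ℂ] Hil (G × (V × Finset A))) := by
    apply le_antisymm
    · rintro _ ⟨x, ⟨hx, hz⟩, rfl⟩
      have hz' : cD ε (Finset.univ.erase a) x = 0 := hz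
      refine ⟨cio_mem hX hx.1, ?_⟩
      change cD ε Finset.univ (cio ε a x) = 0
      rw [← hDN _ (hio x hx.1)]
      have := cio_cD ε (a := a) (S := Finset.univ.erase a) x
      rw [hz', map_zero] at this
      rw [← neg_eq_zero, ← this]
    · rintro y ⟨hy, hz⟩
      have hz' : cD ε Finset.univ y = 0 := hz
      have hy2 := hy
      rw [← map_cio (ε := ε)] at hy2
      obtain ⟨x, hx, rfl⟩ := hy2
      refine ⟨x, ⟨hx, ?_⟩, rfl⟩
      change cD ε (Finset.univ.erase a) x = 0
      apply cio_inj (ε := ε) (cD_cPa hx.2)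
      rw [cio_cD]
      have hz3 : cD ε Finset.univ (cio ε a x) = 0 := hz'
      rw [hDN _ (hio x hx.1), hz3, neg_zero]
  have h7 : Z''.map (((1 - pr B') * cio ε a :
        Hil (G × (V × Finset A)) →L[ℂ] Hil (G × (V × Finset A))) :
        Hil (G × (V × Finset A)) →ₗ[ℂ] Hil (G × (V × Finset A))) =
      (ngp (s a) (ppi hX a) (CH ε (KN a K) op s i)).map
    ((pr (CH ε (K0 a K) op s i) :
      Hil (G × (V × Finset A)) →L[ℂ] Hil (G × (V × Finset A))) :
      Hil (G × (V × Finset A)) →ₗ[ℂ] Hil (G × (V × Finset A))) := by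
    have e0 : Z''.map (((1 - pr B') * cio ε a :
        Hil (G × (V × Finset A)) →L[ℂ] Hil (G × (V × Finset A))) :
        Hil (G × (V × Finset A)) →ₗ[ℂ] Hil (G × (V × Finset A))) =
        (Z''.map ((cio ε a : Hil (G × (V × Finset A)) →L[ℂ] Hil (G × (V × Finset A))) :
        Hil (G × (V × Finset A)) →ₗ[ℂ] Hil (G × (V × Finset A)))).map
        (((1 - pr B') :
        Hil (G × (V × Finset A)) →L[ℂ] Hil (G × (V × Finset A))) :
        Hil (G × (V × Finset A)) →ₗ[ℂ] Hil (G × (V × Finset A))) := by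
      rw [← Submodule.map_comp]
      rfl
    rw [e0, h6]
    set BL := CB ε Finset.univ (CC (KN a K) op s (i + 1)) with hBL
    have hBLB : BL ≤ B' := Submodule.map_mono (CC_mono hXN hX0 (KN_K0 hX a) (i + 1))
    have key : ∀ y ∈ CC (KN a K) op s i, cD ε Finset.univ y = 0 →
        y - pr B' y = pr (CH ε (K0 a K) op s i) (pr (CH ε (KN a K) op s i) y) := by
      intro y hy hDy
      have k1 := hodge (A := CC (KN a K) op s i) (B := CC (KN a K) op s (i + 1))
        (D := cD ε Finset.univ) (CC_closed _) (CH_hyp hXN i) hy hDy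
      change pr (CH ε (KN a K) op s i) y = _ at k1
      have k2 : pr (CH ε (KN a K) op s i) y ∈ CH ε (KN a K) op s i := by
        have := pr_mem (CH ε (KN a K) op s i) y
        rwa [(CH_closed i).submodule_topologicalClosure_eq] at this
      rw [mem_CH] at k2
      have k3 := hodge (A := CC (K0 a K) op s i) (B := CC (K0 a K) op s (i + 1))
        (D := cD ε Finset.univ) (CC_closed _) (CH_hyp hX0 i) (hN0 k2.1) k2.2.1
      change pr (CH ε (K0 a K) op s i) (pr (CH ε (KN a K) op s i) y) = _ at k3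
      rw [k3, k1, map_sub]
      have k4 : pr B' (pr BL y) = pr BL y :=
        pr_eq_self (Submodule.topologicalClosure_mono hBLB (pr_mem BL y))
      change _ = y - pr BL y - (pr B' y - pr B' (pr BL y))
      rw [k4]
      abel
    apply le_antisymm
    · rintro _ ⟨y, ⟨hy, hz⟩, rfl⟩
      rw [SetLike.mem_coe, mem_ngp] at hy
      refine ⟨pr (CH ε (KN a K) op s i) y, ?_, ?_⟩
      · rw [SetLike.mem_coe, mem_ngp]
        have k2 : pr (CH ε (KN a K) op s i) y ∈ CH ε (KN a K) op s i := by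
          have := pr_mem (CH ε (KN a K) op s i) y
          rwa [(CH_closed i).submodule_topologicalClosure_eq] at this
        refine ⟨k2, ?_⟩
        rw [Rp_pr hf (CH_closed i) (Rp_CH hX hf hc), hy.2, map_neg]
      · change _ = y - pr B' y
        rw [key y hy.1 hz]
        rfl
    · rintro _ ⟨h, hh, rfl⟩
      rw [SetLike.mem_coe, mem_ngp] at hh
      have hh1 := mem_CH.mp hh.1
      refine ⟨h, ⟨?_, hh1.2.1⟩, ?_⟩
      · rw [SetLike.mem_coe, mem_ngp]
        exact ⟨hh1.1, hh.2⟩
      · change h - pr B' h = _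
        rw [key h hh1.1 hh1.2.1, pr_eq_self' hh.1]
        rfl
  -- the part coming from the wall
  have h8 : vdim (CB ε (Finset.univ.erase a) C'') =
      vdim (CB ε Finset.univ (ngp (s a) (ppi hX a) (CC (KN a K) op s i))) := by
    have e1 : vdim ((CB ε (Finset.univ.erase a) C'').map
        ((cio ε a : Hil (G × (V × Finset A)) →L[ℂ] Hil (G × (V × Finset A))) :
        Hil (G × (V × Finset A)) →ₗ[ℂ] Hil (G × (V × Finset A)))) =
        vdim (CB ε (Finset.univ.erase a) C'') := by
      apply vdim_map_inj (hC''i.map (cD_equi ε _)) (cio_equi ε a)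
      intro x hx h0
      apply cio_inj (ε := ε) (a := a) _ h0
      have : (CB ε (Finset.univ.erase a) C'').topologicalClosure ≤ cPa a := by
        apply Submodule.topologicalClosure_minimal _ _ (cPa_closed a)
        rintro _ ⟨y, hy, rfl⟩
        exact cD_cPa hy.2
      exact this hx
    rw [← e1]
    congr 1
    rw [← map_cio (ε := ε)]
    apply le_antisymm
    · rintro _ ⟨_, ⟨x, hx, rfl⟩, rfl⟩
      refine ⟨-(cio ε a x), ?_, ?_⟩
      · rw [SetLike.mem_coe]
        apply Submodule.neg_mem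
        exact ⟨x, hx, rfl⟩
      · change cD ε Finset.univ (-(cio ε a x)) = cio ε a (cD ε (Finset.univ.erase a) x)
        rw [cio_cD, map_neg, hDN _ (hio x hx.1)]
    · rintro _ ⟨_, ⟨x, hx, rfl⟩, rfl⟩
      refine ⟨-(cD ε (Finset.univ.erase a) x), ?_, ?_⟩
      · rw [SetLike.mem_coe]
        apply Submodule.neg_mem
        exact ⟨x, hx, rfl⟩
      · change cio ε a (-(cD ε (Finset.univ.erase a) x)) = cD ε Finset.univ (cio ε a x)
        rw [map_neg, cio_cD, neg_neg, hDN _ (hio x hx.1)]
  rw [h5] at h2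
  rw [h7] at h4
  change _ = _ + vdim (CB ε (Finset.univ.erase a) C'') at h3
  unfold rhoc
  rw [h1, ← h8]
  linarith

/-- The label formula. -/
theorem label_dim (hX : IsCub K op) {a : A} (ha2 : s a * s a = 1)
    (hc : ∀ v t, a ≠ t → K v {a, t} → s t * s a = s a * s t) (i : ℤ) :
    vdim (CH ε K op s (i + 1)) + rhoc ε s hX a i + rhoc ε s hX a (i + 1) =
      vdim (CH ε (K0 a K) op s (i + 1)) +
        vdim (ngp (s a) (ppi hX a) (CH ε (KN a K) op s i)) := by
  have hX0 := K0_cub a hX
  have h1 := rank_label (ε := ε) hX ha2 hc i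
  have h2 := rank_label (ε := ε) hX ha2 hc (i + 1)
  have h3 := chain_dim (A := CC K op s (i + 1))
    (B := CC K op s (i + 1 + 1)) (D := cD ε Finset.univ) (CC_closed _)
    (CC_inv _) (cD_equi _ _) (CH_hyp hX _)
  have h4 := chain_dim (A := CC (K0 a K) op s (i + 1))
    (B := CC (K0 a K) op s (i + 1 + 1)) (D := cD ε Finset.univ) (CC_closed _)
    (CC_inv _) (cD_equi _ _) (CH_hyp hX0 _)
  have h5 := chain_dim (A := ngp (s a) (ppi hX a) (CC (KN a K) op s i))
    (B := ngp (s a) (ppi hX a) (CC (KN a K) op s (i + 1))) (D := cD ε Finset.univ)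
    (ngp_closed (CC_closed _)) (ngp_inv (CC_inv _)) (cD_equi _ _) (ngp_hyp hX)
  rw [Harm_ngp hX ha2 hc] at h5
  have h6 : vdim (CC K op s (i + 1)) = vdim (CC (K0 a K) op s (i + 1)) +
      vdim (CC K op s (i + 1) ⊓ cPa a) := by
    conv_lhs => rw [CC_split ε hX (a := a)]
    exact vdim_sup CC0_orth
  have h7 : vdim (CC K op s (i + 1) ⊓ cPa a) =
      vdim (ngp (s a) (ppi hX a) (CC (KN a K) op s i)) := by
    rw [← map_cio (ε := ε), vdim_map_inj ((CC_inv _).inf (cPa_inv a)) (cio_equi ε a)]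
    intro x hx h0
    apply cio_inj (ε := ε) (a := a) _ h0
    have := Submodule.topologicalClosure_minimal _
      (inf_le_right : CC K op s (i + 1) ⊓ cPa a ≤ cPa a) (cPa_closed a)
    exact this hx
  change vdim (Harm (CC K op s (i + 1)) (CC K op s (i + 1 + 1))
    (cD ε Finset.univ)) + _ + _ = vdim (Harm (CC (K0 a K) op s (i + 1))
    (CC (K0 a K) op s (i + 1 + 1)) (cD ε Finset.univ)) + _
  change _ = _ + _ + vdim (CB ε Finset.univ (CC K op s (i + 1 + 1))) at h3
  change _ = _ + vdim (CB ε Finset.univ (CC K op s (i + 1))) + _ at h3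
  change _ = _ + vdim (CB ε Finset.univ (CC (K0 a K) op s (i + 1))) +
    vdim (CB ε Finset.univ (CC (K0 a K) op s (i + 1 + 1))) at h4
  change _ = _ + vdim (CB ε Finset.univ (ngp (s a) (ppi hX a) (CC (KN a K) op s i))) +
    vdim (CB ε Finset.univ (ngp (s a) (ppi hX a) (CC (KN a K) op s (i + 1)))) at h5
  linarith

/-- The kernel of the connecting map. -/
def kerc (ε : Sgn A) {K : V → Finset A → Prop} {op : A → V → V} (s : A → G) (hX : IsCub K op)
    (a : A) (i : ℤ) : Submodule ℂ (Hil (G × (V × Finset A))) :=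
  ngp (s a) (ppi hX a) (CH ε (KN a K) op s i) ⊓ LinearMap.ker
    ((pr (CH ε (K0 a K) op s i) :
      Hil (G × (V × Finset A)) →L[ℂ] Hil (G × (V × Finset A))) :
      Hil (G × (V × Finset A)) →ₗ[ℂ] Hil (G × (V × Finset A)))

theorem rhoc_add_kerc (hX : IsCub K op) (a : A) (i : ℤ) :
    vdim (kerc ε s hX a i) + rhoc ε s hX a i =
      vdim (ngp (s a) (ppi hX a) (CH ε (KN a K) op s i)) := by
  unfold rhoc kerc
  rw [← rank_nullity (ngp_closed (CH_closed i)) (ngp_inv (CH_inv i))]
  exact (CH_inv i).equi_pr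

end

end Pool.Agent.Helper30L2
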