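import Pool.Agent.Helper30_Cube.Les

/-!
# Mirroring one label does not decrease square-summable Betti numbers
-/

namespace Pool.Agent.Helper30L2

open scoped ENNReal InnerProductSpace
open Filter

set_option linter.unusedSectionVars false

noncomputable section

section ind

variable {A : Type*} [DecidableEq A] {V : Type*} {G₁ G₂ : Type*} [Group G₁] [Group G₂]
  {φ : G₁ →* G₂} {hφ : Function.Injective φ}
  {K : V → Finset A → Prop} {op : A → V → V} {s₁ : A → G₁} {s₂ : A → G₂} {ε : Sgn A}

theorem res_cio (g : G₂) (a : A) (x : Hil (G₂ × (V × Finset A))) :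
    res φ hφ (Equiv.refl _) g (cio ε a x) = cio ε a (res φ hφ (Equiv.refl _) g x) := by
  apply Hil.ext'
  rintro ⟨h, v, T⟩
  rw [res_apply, Equiv.refl_apply, cio_apply, cio_apply, res_apply, Equiv.refl_apply]

theorem res_cD (g : G₂) (S : Finset A) (x : Hil (G₂ × (V × Finset A))) :
    res φ hφ (Equiv.refl _) g (cD ε S x) = cD ε S (res φ hφ (Equiv.refl _) g x) := by
  rw [cD_apply', cD_apply', map_sum]
  exact Finset.sum_congr rfl fun a _ => res_cio g a x

theorem CC_Ind (hs : ∀ v T t, K v T → t ∈ T → φ (s₁ t) = s₂ t) (i : ℤ) :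
    CC K op s₂ i = Ind φ hφ (Equiv.refl _) (CC K op s₁ i) := by
  ext x
  rw [mem_Ind]
  constructor
  · intro hx g
    rw [mem_CC] at hx ⊢
    constructor
    · intro h v T hT
      rw [res_apply]
      exact hx.1 _ _ _ hT
    · intro h v T hT t ht
      rw [res_apply, res_apply]
      simp only [Equiv.refl_apply]
      rw [map_mul, hs v T t hT ht, ← mul_assoc]
      exact hx.2 _ _ _ hT _ ht
  · intro hx
    rw [mem_CC]
    have hval : ∀ g v T, x (g, (v, T)) = res φ hφ (Equiv.refl _) g x (1, (v, T)) := by
      intro g v T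
      rw [res_apply]
      simp
    constructor
    · intro g v T hT
      rw [hval]
      exact (hx g).1 _ _ _ hT
    · intro g v T hT t ht
      rw [hval g, ← (hx g).2 1 v T hT t ht, res_apply]
      simp only [one_mul, Equiv.refl_apply]
      rw [hs v T t hT ht]

theorem ext_cD (S : Finset A) (y : Hil (G₁ × (V × Finset A))) :
    cD ε S (ext φ hφ (Equiv.refl _) y) = ext φ hφ (Equiv.refl _) (cD ε S y) := by
  apply eq_of_res (φ := φ) (hφ := hφ) (κ := Equiv.refl _)
  intro g
  rw [res_cD]
  by_cases hg : g ∈ Set.range φ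
  · obtain ⟨h, rfl⟩ := hg
    rw [res_ext, res_ext, cD_equi]
  · rw [res_ext_not _ hg, res_ext_not _ hg, map_zero]

theorem CH_Ind [Fintype A] (hs : ∀ v T t, K v T → t ∈ T → φ (s₁ t) = s₂ t) (i : ℤ) :
    CH ε K op s₂ i = Ind φ hφ (Equiv.refl _) (CH ε K op s₁ i) := by
  have hC := CC_Ind (hφ := hφ) (op := op) hs i
  have hC1 := CC_Ind (hφ := hφ) (op := op) hs (i + 1)
  ext x
  rw [mem_Ind, mem_CH]
  constructor
  · rintro ⟨h1, h2, h3⟩ g
    rw [mem_CH]
    refine ⟨?_, ?_, ?_⟩
    · rw [hC, mem_Ind] at h1
      exact h1 g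
    · rw [← res_cD, h2, map_zero]
    · intro y hy
      have e1 : res φ hφ (Equiv.refl _) g x = res φ hφ (Equiv.refl _) 1 (Lt g⁻¹ x) := by
        rw [res_Lt]; simp
      rw [e1, ← inner_ext, ← ext_cD, ← inv_inv g, ← inner_Lt, inv_inv, ← cD_equi]
      apply h3
      rw [hC1]
      exact Ind_inv _ g _ (ext_mem_Ind (CC_inv _) hy)
  · intro h
    refine ⟨?_, ?_, ?_⟩
    · rw [hC, mem_Ind]
      exact fun g => (mem_CH.mp (h g)).1
    · apply eq_of_res (φ := φ) (hφ := hφ) (κ := Equiv.refl _)
      intro g
      rw [res_cD, (mem_CH.mp (h g)).2.1, map_zero]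
    · intro y hy
      set B := CB ε Finset.univ (CC K op s₁ (i + 1)) with hB
      have hBi : Inv B := (CC_inv _).map (cD_equi _ _)
      have e1 : x ∈ (Ind φ hφ (Equiv.refl _) B.topologicalClosure)ᗮ := by
        rw [Ind_orth (Submodule.isClosed_topologicalClosure B) hBi.closure, mem_Ind]
        intro g
        rw [mem_orth_closure]
        exact (h g).2
      rw [Submodule.mem_orthogonal] at e1
      apply e1
      rw [mem_Ind]
      intro g
      apply Submodule.le_topologicalClosure
      rw [res_cD]
      rw [hC1, mem_Ind] at hy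
      exact ⟨_, hy g, rfl⟩

end ind

section congr

variable {A : Type*} [DecidableEq A] {V : Type*} {G : Type*} [Group G]
  {K : V → Finset A → Prop} {op op' : A → V → V} {s : A → G} {ε : Sgn A}

theorem CC_congr_op (h : ∀ v T t, K v T → t ∈ T → op t v = op' t v) (i : ℤ) :
    CC K op s i = CC K op' s i := by
  ext x
  rw [mem_CC, mem_CC]
  refine and_congr Iff.rfl ?_
  constructor
  · intro hx g v T hT t ht
    rw [← h v T t hT ht]
    exact hx g v T hT t ht
  · intro hx g v T hT t ht
    rw [h v T t hT ht]
    exact hx g v T hT t ht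

theorem CH_congr_op [Fintype A] (h : ∀ v T t, K v T → t ∈ T → op t v = op' t v) (i : ℤ) :
    CH ε K op s i = CH ε K op' s i := by
  unfold CH
  rw [CC_congr_op h, CC_congr_op h]

end congr

section main

variable {A : Type*} [DecidableEq A] [Fintype A] {V : Type*} [Fintype V]
  {K : V → Finset A → Prop} {op : A → V → V} {ε : Sgn A} {Γ : SimpleGraph A}

/-- The label `a` is mirrored: the edges with this label do not cross their walls. -/
def mir (op : A → V → V) (a : A) (b : A) (v : V) : V := if b = a then v else op b v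

theorem mir_cub (hX : IsCub K op) (a : A) : IsCub K (mir op a) where
  down := hX.down
  flip := by
    intro v T t h ht
    unfold mir
    split_ifs
    · exact h
    · exact hX.flip h ht
  inv := by
    intro v T t h ht
    unfold mir
    split_ifs
    · rfl
    · exact hX.inv h ht
  comm := by
    intro v T t u h ht hu
    unfold mir
    split_ifs
    · rfl
    · rfl
    · rfl
    · exact hX.comm h ht hu

theorem ppi_mir (hX : IsCub K op) (a : A) :
    ppi (mir_cub hX a) a = Equiv.refl (V × Finset A) := by
  ext1 ⟨v, T⟩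
  rw [ppi_apply, Equiv.refl_apply]
  congr 1
  by_cases h : K v {a}
  · rw [tau_eq h]
    unfold mir
    rw [if_pos rfl]
  · rw [tau_ne h]

/-- Mirroring one label does not decrease the dimension of the kernel of the connecting map. -/
theorem kerc_mono {W : Type*} [Group W] (cs : CoxeterSystem (cm Γ) W) (hX : IsCub K op)
    (hcl : ∀ v T, K v T → Γ.IsClique (T : Set A)) (a : A) (i : ℤ) :
    vdim (kerc ε cs.simple hX a i) ≤ vdim (kerc ε cs.simple (mir_cub hX a) a i) := by
  classical
  set L : Finset A := lk Γ Finset.univ a with hL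
  set M : Finset A := Finset.univ.erase a with hM
  have hLadj : ∀ v ∈ L, Γ.Adj a v := fun v hv => (mem_lk.mp hv).2
  have hLM : L ⊆ M := by
    intro v hv
    exact Finset.mem_erase.mpr ⟨(hLadj v hv).ne', Finset.mem_univ _⟩
  have hle : Us cs L ≤ Us cs M := Us_mono cs hLM
  set ψ : Us cs L →* Us cs M := Subgroup.inclusion hle with hψd
  have hψ : Function.Injective ψ := Subgroup.inclusion_injective hle
  have hj : Function.Injective (Us cs L).subtype := Subgroup.subtype_injective _
  have hφ : Function.Injective (Us cs M).subtype := Subgroup.subtype_injective _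
  have hjφ : (Us cs L).subtype = (Us cs M).subtype.comp ψ := rfl
  have hja : ∀ u, (Us cs L).subtype u * cs.simple a = cs.simple a * (Us cs L).subtype u :=
    fun u => comm_Us cs hLadj _ u.2
  have haj : cs.simple a ∉ Set.range (Us cs L).subtype := by
    rintro ⟨u, hu⟩
    have h1 : cs.simple a ∈ Us cs L := by rw [← hu]; exact u.2
    exact not_mem_Us cs (fun h => (hLadj a h).ne rfl) h1
  obtain ⟨P, hP1, hP2, hP3⟩ := exists_half cs (a := a) (A := L) (fun v => by
    rw [hL, mem_lk]
    exact ⟨fun h => ⟨Finset.mem_univ _, h⟩, fun h => h.2⟩)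
  have hP : HalfSpace (Us cs M).subtype (Us cs L).subtype (cs.simple a) P := by
    refine ⟨hP1, ?_, ?_⟩
    · intro g hg h
      have key : ∀ u ∈ Us cs M, ∀ g, g ∈ P ↔ g * u ∈ P := by
        have hsub : Us cs M ≤
            { carrier := {u | ∀ g, g ∈ P ↔ g * u ∈ P}
              mul_mem' := by
                intro x y hx hy g
                rw [← mul_assoc, ← hy, ← hx]
              one_mem' := by intro g; rw [mul_one]
              inv_mem' := by
                intro x hx g
                have := hx (g * x⁻¹)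
                rw [inv_mul_cancel_right] at this
                exact this.symm : Subgroup W } := by
          unfold Us
          rw [Subgroup.closure_le]
          rintro _ ⟨v, hv, rfl⟩ g
          have hva : v ≠ a := (Finset.mem_erase.mp hv).1
          constructor
          · intro hg
            exact hP2 g hg v hva
          · intro hg
            have := hP2 _ hg v hva
            rwa [mul_assoc, sm_sq cs v, mul_one] at this
        exact fun u hu => hsub hu
      exact (key _ h.2 g).mp hg
    · intro g hg hgj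
      have hr : ∀ g, g ∈ Set.range (Us cs L).subtype ↔ g ∈ Us cs L := by
        intro g
        constructor
        · rintro ⟨u, rfl⟩
          exact u.2
        · intro h
          exact ⟨⟨g, h⟩, rfl⟩
      rw [hr] at hgj ⊢
      rcases hP3 g hg with h | h
      · exact absurd h hgj
      · exact h
  have hNL : ∀ v T t, KN a K v T → t ∈ T → t ∈ L := by
    intro v T t h ht
    rw [hL, mem_lk]
    refine ⟨Finset.mem_univ _, ?_⟩
    apply hcl v _ h.1
    · simp
    · simp [ht]
    · rintro rfl
      exact h.2 ht
  have hN : CH ε (KN a K) op cs.simple i = Ind (Us cs L).subtype hj (Equiv.refl _)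
      (CH ε (KN a K) op (su cs L) i) :=
    CH_Ind (fun v T t h ht => su_coe cs (hNL v T t h ht)) i
  have h0 : CH ε (K0 a K) op cs.simple i = Ind (Us cs M).subtype hφ (Equiv.refl _)
      (CH ε (K0 a K) op (su cs M) i) :=
    CH_Ind (fun v T t h ht => su_coe cs (Finset.mem_erase.mpr
      ⟨by rintro rfl; exact h.2 ht, Finset.mem_univ _⟩)) i
  have hN' : CH ε (KN a K) (mir op a) cs.simple i = CH ε (KN a K) op cs.simple i := by
    apply CH_congr_op
    intro v T t h ht
    unfold mir
    rw [if_neg]
    rintro rfl
    exact h.2 ht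
  have h0' : CH ε (K0 a K) (mir op a) cs.simple i = CH ε (K0 a K) op cs.simple i := by
    apply CH_congr_op
    intro v T t h ht
    unfold mir
    rw [if_neg]
    rintro rfl
    exact h.2 ht
  have key := KP_mono (a := cs.simple a) (π := ppi hX a) (ppi_flp hX (sm_sq cs a)) hjφ hψ
    (hj := hj) (hφ := hφ) hja haj hP
    (H := CH ε (KN a K) op (su cs L) i) (CH_closed i)
    (N := CH ε (K0 a K) op (su cs M) i) (CH_closed i) (CH_inv i)
  unfold kerc
  rw [hN', h0', ppi_mir hX a, hN, h0]
  exact key

/-- Mirroring one label does not decrease the Betti numbers. -/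
theorem mir_mono {W : Type*} [Group W] (cs : CoxeterSystem (cm Γ) W) (hX : IsCub K op)
    (hcl : ∀ v T, K v T → Γ.IsClique (T : Set A)) (a : A) (i : ℤ) :
    vdim (CH ε K op cs.simple i) ≤ vdim (CH ε K (mir op a) cs.simple i) := by
  classical
  have hc : ∀ v t, a ≠ t → K v {a, t} →
      cs.simple t * cs.simple a = cs.simple a * cs.simple t := by
    intro v t hat h
    apply sm_comm cs
    exact hcl v _ h (by simp) (by simp) hat.symm
  have hX' := mir_cub hX a
  have e0 : CH ε (K0 a K) (mir op a) cs.simple i = CH ε (K0 a K) op cs.simple i := by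
    apply CH_congr_op
    intro v T t h ht
    unfold mir
    rw [if_neg]
    rintro rfl
    exact h.2 ht
  have hd : ∀ (op' : A → V → V) (hX' : IsCub K op') (m : ℤ),
      vdim (ngp (cs.simple a) (ppi hX' a) (CH ε (KN a K) op' cs.simple m)) =
        2⁻¹ * vdim (CH ε (KN a K) op' cs.simple m) := by
    intro op' hX' m
    set L : Finset A := lk Γ Finset.univ a with hL
    have hLadj : ∀ v ∈ L, Γ.Adj a v := fun v hv => (mem_lk.mp hv).2
    have hj : Function.Injective (Us cs L).subtype := Subgroup.subtype_injective _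
    have hja : ∀ u, (Us cs L).subtype u * cs.simple a = cs.simple a * (Us cs L).subtype u :=
      fun u => comm_Us cs hLadj _ u.2
    have haj : cs.simple a ∉ Set.range (Us cs L).subtype := by
      rintro ⟨u, hu⟩
      have h1 : cs.simple a ∈ Us cs L := by rw [← hu]; exact u.2
      exact not_mem_Us cs (fun h => (hLadj a h).ne rfl) h1
    have hNL : ∀ v T t, KN a K v T → t ∈ T → t ∈ L := by
      intro v T t h ht
      rw [hL, mem_lk]
      refine ⟨Finset.mem_univ _, ?_⟩
      apply hcl v _ h.1
      · simp
      · simp [ht]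
      · rintro rfl
        exact h.2 ht
    have hN : CH ε (KN a K) op' cs.simple m = Ind (Us cs L).subtype hj (Equiv.refl _)
        (CH ε (KN a K) op' (su cs L) m) :=
      CH_Ind (fun v T t h ht => su_coe cs (hNL v T t h ht)) m
    rw [hN, vdim_ngp_Ind (ppi_flp hX' (sm_sq cs a)) hja haj (CH_closed m) (CH_inv m),
      vdim_Ind (CH_closed m) (CH_inv m)]
    have hf : Flp (1 : Us cs L) (ppi hX' a) := ⟨one_mul 1, fun p => (ppi hX' a).left_inv p⟩
    exact Rp_CH hX' hf (fun v t _ _ => by rw [mul_one, one_mul])
  have eN : ∀ m : ℤ, CH ε (KN a K) (mir op a) cs.simple m = CH ε (KN a K) op cs.simple m := by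
    intro m
    apply CH_congr_op
    intro v T t h ht
    unfold mir
    rw [if_neg]
    rintro rfl
    exact h.2 ht
  have l1 := label_dim (ε := ε) (s := cs.simple) hX (sm_sq cs a) hc (i - 1)
  have l2 := label_dim (ε := ε) (s := cs.simple) hX' (sm_sq cs a) hc (i - 1)
  rw [sub_add_cancel] at l1 l2
  have k1 := rhoc_add_kerc (ε := ε) (s := cs.simple) hX a (i - 1)
  have k2 := rhoc_add_kerc (ε := ε) (s := cs.simple) hX a i
  have k3 := rhoc_add_kerc (ε := ε) (s := cs.simple) hX' a (i - 1)
  have k4 := rhoc_add_kerc (ε := ε) (s := cs.simple) hX' a i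
  have m1 := kerc_mono (ε := ε) cs hX hcl a (i - 1)
  have m2 := kerc_mono (ε := ε) cs hX hcl a i
  rw [hd _ hX] at l1 k1 k2
  rw [hd _ hX', eN] at l2 k3 k4
  rw [e0] at l2
  linarith

end main

end

end Pool.Agent.Helper30L2
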