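import Pool.Agent.Helper30_L2.Defs
import Pool.Agent.Helper30_Cube.Defs
import Pool.Agent.Helper30_Cube.Built

/-!
# The Singer conjecture for a class of special cubical manifolds in all dimensions

The Singer conjecture says that the reduced square-summable homology of the universal covering of a
closed aspherical `n`-manifold vanishes in all degrees different from `n / 2`.  We prove this for
all closed `n`-manifolds that are special cube complexes (in the sense of Haglund and Wise) and
whose vertex links belong to the class `Built` of flag complexes.  This class is generated by the
empty complex and two points (and by all flag complexes for which the vanishing is known for the
Davis complexes of the complex and all its links) using joins, edge subdivisions, gluings along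
separating full subcomplexes, and vertex splittings that create no induced four-cycle through the
new edge.  The links of different vertices may be different.

For a complex with one vertex all of whose edges are mirrored this is a statement about the Davis
complex of a right-angled Coxeter group.
-/

namespace Pool.Agent.Results.MP_f80465_gt.SpecialSinger

open Pool.Agent.Special

/-- Let `X` be a special cube complex all of whose vertex links are in the class `Built` in
dimension `n`.  Then the reduced square-summable homology of the universal covering of `X` vanishes
in all degrees different from `n / 2`; moreover every vertex link `L` is hereditary, that is, the
reduced square-summable homology of the Davis complex of the link of every clique `T` of `L`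
vanishes in all degrees different from `(n - |T|) / 2`. -/
theorem result {A V : Type} [Fintype A] [Fintype V] {Γ : SimpleGraph A} (X : CubeComplex Γ V)
    {n : ℕ} (h : ∀ v, Pool.Agent.Davis.Built (X.labels v) (X.link v) n) :
    (∀ i : ℕ, 2 * i ≠ n → HomologyVanishes X i) ∧
      ∀ (v : V) [Fintype (X.labels v)], Pool.Agent.Davis.Hereditary (X.link v) n :=
  ⟨fun _ hi => special_built X h hi, fun v _ => Pool.Agent.Davis.built_hereditary (h v)⟩

end Pool.Agent.Results.MP_f80465_gt.SpecialSinger
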